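import Mathlib

set_option autoImplicit false

open Filter Topology

namespace Pool.Agent.H27.DiffProd

/-- Valid pairs `(s, b)`: `s` is not a power of two, `2^{v₂ s} ≤ odd part of s`, `v₂ b = v₂ s`,
`b` is much larger than `s` and very close to a power of two. -/
def V (F : ℕ → ℕ) (s b : ℕ) : Prop :=
  0 < s ∧ (∀ k : ℕ, s ≠ 2 ^ k) ∧ 2 ^ (2 * padicValNat 2 s) ≤ s ∧
    padicValNat 2 b = padicValNat 2 s ∧ s * F s ≤ b ∧
    ∃ k : ℕ, |(b : ℤ) - 2 ^ k| * F s ≤ b

/-- position of `x` on the logarithmic circle -/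
noncomputable def θ (x : ℕ) : UnitAddCircle := ((Real.logb 2 x : ℝ) : UnitAddCircle)

lemma θ_mul {x y : ℕ} (hx : 0 < x) (hy : 0 < y) : θ (x * y) = θ x + θ y := by
  unfold θ
  rw [← AddCircle.coe_add]
  congr 1
  push_cast
  rw [Real.logb_mul (by positivity) (by positivity)]

lemma norm_θ (x : ℕ) : ‖θ x‖ = |Real.logb 2 x - round (Real.logb 2 x)| := by
  unfold θ
  rw [UnitAddCircle.norm_eq]

lemma pow_of_norm_zero {x : ℕ} (hx : 0 < x) (h : ‖θ x‖ = 0) : ∃ k : ℕ, x = 2 ^ k := by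
  rw [norm_θ, abs_eq_zero, sub_eq_zero] at h
  have h1 : (0 : ℝ) ≤ Real.logb 2 x := Real.logb_nonneg (by norm_num) (by exact_mod_cast hx)
  have h2 : 0 ≤ round (Real.logb 2 x) := by
    have : (0 : ℝ) ≤ (round (Real.logb 2 x) : ℝ) := by rw [← h]; exact h1
    exact_mod_cast this
  obtain ⟨k, hk⟩ := Int.eq_ofNat_of_zero_le h2
  refine ⟨k, ?_⟩
  have h3 : Real.logb 2 x = k := by rw [h, hk]; simp
  have h4 : (x : ℝ) = (2 : ℝ) ^ k := by
    have hx' : (0 : ℝ) < x := by exact_mod_cast hx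
    have := Real.rpow_logb (b := 2) (by norm_num) (by norm_num) hx'
    rw [← this, h3, Real.rpow_natCast]
  exact_mod_cast h4

lemma norm_zero_of_pow {x k : ℕ} (h : x = 2 ^ k) : ‖θ x‖ = 0 := by
  have : Real.logb 2 x = k := by
    rw [h]; push_cast
    rw [Real.logb_pow]
    simp
  rw [norm_θ, this]
  simp

lemma tendsto_sub (a : ℕ → ℕ) (s : ℕ) (ha : Tendsto a atTop atTop) {t : UnitAddCircle}
    (h : Tendsto (fun m => θ (a m)) atTop (𝓝 t)) :
    Tendsto (fun m => θ (a m - s)) atTop (𝓝 t) := by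
  have ha' : Tendsto (fun m => (a m : ℝ)) atTop atTop := tendsto_natCast_atTop_atTop.comp ha
  have h1 : Tendsto (fun m => ((a m - s : ℕ) : ℝ) / (a m : ℝ)) atTop (𝓝 1) := by
    have h2 : Tendsto (fun m => 1 - (s : ℝ) / (a m : ℝ)) atTop (𝓝 (1 - 0)) := by
      exact tendsto_const_nhds.sub (Tendsto.div_atTop tendsto_const_nhds ha')
    rw [sub_zero] at h2
    refine h2.congr' ?_
    filter_upwards [ha.eventually_ge_atTop (s + 1)] with m hm
    have : (a m : ℝ) ≠ 0 := by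
      have : 0 < a m := by omega
      positivity
    rw [Nat.cast_sub (by omega)]
    field_simp
  have h3 : Tendsto (fun m => Real.logb 2 (((a m - s : ℕ) : ℝ) / (a m : ℝ))) atTop (𝓝 0) := by
    have := (Real.continuousAt_logb (b := 2) (x := 1) one_ne_zero).tendsto.comp h1
    simpa [Function.comp_def] using this
  have h4 : Tendsto (fun m => ((Real.logb 2 (((a m - s : ℕ) : ℝ) / (a m : ℝ)) : ℝ) : UnitAddCircle))
      atTop (𝓝 0) := by
    have : Tendsto (fun x : ℝ => (x : UnitAddCircle)) (𝓝 0) (𝓝 ((0 : ℝ) : UnitAddCircle)) :=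
      (AddCircle.continuous_mk' 1).continuousAt.tendsto
    simpa [Function.comp_def] using this.comp h3
  have h5 := h.add h4
  rw [add_zero] at h5
  refine h5.congr' ?_
  filter_upwards [ha.eventually_ge_atTop (s + 1)] with m hm
  unfold θ
  rw [← AddCircle.coe_add]
  congr 1
  have h6 : ((a m : ℕ) : ℝ) ≠ 0 := by
    have : 0 < a m := by omega
    positivity
  have h7 : ((a m - s : ℕ) : ℝ) ≠ 0 := by
    have : 0 < a m - s := by omega
    positivity
  rw [Real.logb_div h7 h6]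
  ring

/-- arc colouring -/
noncomputable def A (x : ℕ) : ZMod 8 := ((⌊8 * Int.fract (Real.logb 2 x)⌋ : ℤ) : ZMod 8)

/-- scale colouring -/
noncomputable def B (x : ℕ) : ZMod 4 := ((⌊2 * Real.logb 2 ‖θ x‖⌋ : ℤ) : ZMod 4)

lemma A_close {x y : ℕ} (h : A x = A y) : ‖θ x - θ y‖ ≤ 1 / 8 := by
  unfold A at h
  rw [ZMod.intCast_eq_intCast_iff_dvd_sub] at h
  set u := Real.logb 2 x with hu
  set v := Real.logb 2 y with hv
  have hu0 := Int.fract_nonneg u
  have hu1 := Int.fract_lt_one u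
  have hv0 := Int.fract_nonneg v
  have hv1 := Int.fract_lt_one v
  have h1 : (0 : ℤ) ≤ ⌊8 * Int.fract u⌋ := Int.floor_nonneg.mpr (by positivity)
  have h2 : (0 : ℤ) ≤ ⌊8 * Int.fract v⌋ := Int.floor_nonneg.mpr (by positivity)
  have h3 : ⌊8 * Int.fract u⌋ < 8 := Int.floor_lt.mpr (by push_cast; linarith)
  have h4 : ⌊8 * Int.fract v⌋ < 8 := Int.floor_lt.mpr (by push_cast; linarith)
  have h5 : ⌊8 * Int.fract u⌋ = ⌊8 * Int.fract v⌋ := by
    push_cast at h
    omega
  have h6 : |8 * Int.fract u - 8 * Int.fract v| < 1 := Int.abs_sub_lt_one_of_floor_eq_floor h5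
  have h7 : θ x - θ y = ((Int.fract u - Int.fract v : ℝ) : UnitAddCircle) := by
    unfold θ
    rw [← hu, ← hv, AddCircle.coe_sub]
    congr 1
    · conv_lhs => rw [← Int.floor_add_fract u, AddCircle.coe_add]
      have : (((⌊u⌋ : ℤ) : ℝ) : UnitAddCircle) = 0 := by
        rw [AddCircle.coe_eq_zero_iff]
        exact ⟨⌊u⌋, by simp⟩
      rw [this, zero_add]
    · conv_lhs => rw [← Int.floor_add_fract v, AddCircle.coe_add]
      have : (((⌊v⌋ : ℤ) : ℝ) : UnitAddCircle) = 0 := by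
        rw [AddCircle.coe_eq_zero_iff]
        exact ⟨⌊v⌋, by simp⟩
      rw [this, zero_add]
  rw [h7]
  have h8 : ‖((Int.fract u - Int.fract v : ℝ) : UnitAddCircle)‖ = |Int.fract u - Int.fract v| := by
    rw [AddCircle.norm_coe_eq_abs_iff _ one_ne_zero]
    rw [abs_lt] at h6
    rw [abs_le]
    simp only [abs_one]
    constructor <;> linarith [h6.1, h6.2]
  rw [h8, abs_le]
  rw [abs_lt] at h6
  constructor <;> linarith [h6.1, h6.2]

lemma norm_double {x : UnitAddCircle} (h : ‖x‖ ≤ 1 / 8) : ‖x + x‖ = 2 * ‖x‖ := by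
  obtain ⟨u, rfl⟩ := QuotientAddGroup.mk_surjective x
  change ‖((u : ℝ) : UnitAddCircle) + ((u : ℝ) : UnitAddCircle)‖ = 2 * ‖((u : ℝ) : UnitAddCircle)‖
  change ‖((u : ℝ) : UnitAddCircle)‖ ≤ 1 / 8 at h
  set w := u - round u with hw
  have h1 : ((u : ℝ) : UnitAddCircle) = ((w : ℝ) : UnitAddCircle) := by
    rw [hw, AddCircle.coe_sub]
    have : (((round u : ℤ) : ℝ) : UnitAddCircle) = 0 := by
      rw [AddCircle.coe_eq_zero_iff]
      exact ⟨round u, by simp⟩
    rw [this, sub_zero]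
  have h2 : ‖((u : ℝ) : UnitAddCircle)‖ = |w| := by rw [UnitAddCircle.norm_eq]
  rw [h2] at h ⊢
  rw [h1, ← AddCircle.coe_add]
  have h3 : ‖((w + w : ℝ) : UnitAddCircle)‖ = |w + w| := by
    rw [AddCircle.norm_coe_eq_abs_iff _ one_ne_zero]
    rw [abs_le] at h ⊢
    simp only [abs_one]
    constructor <;> linarith [h.1, h.2]
  rw [h3, ← two_mul, abs_mul]
  simp

lemma atTop_of_strictMono {a : ℕ → ℕ} (ha : StrictMono a) : Tendsto a atTop atTop :=
  ha.tendsto_atTop

lemma tendsto_mul (a : ℕ → ℕ) (hpos : ∀ n, 0 < a n) {t : UnitAddCircle}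
    (h : Tendsto (fun m => θ (a m)) atTop (𝓝 t)) (n : ℕ) :
    Tendsto (fun m => θ (a n * a m)) atTop (𝓝 (θ (a n) + t)) := by
  have : (fun m => θ (a n * a m)) = fun m => θ (a n) + θ (a m) := by
    funext m
    exact θ_mul (hpos n) (hpos m)
  rw [this]
  exact tendsto_const_nhds.add h

lemma circle (a : ℕ → ℕ) (ha : StrictMono a) (hpos : ∀ n, 0 < a n) {t : UnitAddCircle}
    (h : Tendsto (fun m => θ (a m)) atTop (𝓝 t))
    (hA : ∀ n m, n < m → A (a m - a n) = A (a n * a m))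
    (hB : ∀ n m, n < m → B (a m - a n) = B (a n * a m)) : t = 0 := by
  have ha' := atTop_of_strictMono ha
  have hD : ∀ n, Tendsto (fun m => θ (a m - a n)) atTop (𝓝 t) := fun n => tendsto_sub a (a n) ha' h
  have hP := tendsto_mul a hpos h
  have h1 : ∀ n, ‖θ (a n)‖ ≤ 1 / 8 := by
    intro n
    have h2 : Tendsto (fun m => ‖θ (a n * a m) - θ (a m - a n)‖) atTop (𝓝 ‖θ (a n)‖) := by
      have := ((hP n).sub (hD n)).norm
      simpa using this
    refine le_of_tendsto h2 ?_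
    filter_upwards [eventually_gt_atTop n] with m hm
    exact A_close (hA n m hm).symm
  have h2 : ‖t‖ ≤ 1 / 8 := le_of_tendsto h.norm (Eventually.of_forall h1)
  by_contra ht
  have h3 : 0 < ‖t‖ := norm_pos_iff.mpr ht
  set u₀ := Real.logb 2 ‖t‖ with hu₀
  -- products
  have h4 : Tendsto (fun n => Real.logb 2 ‖θ (a n) + t‖) atTop (𝓝 (u₀ + 1)) := by
    have h5 : Tendsto (fun n => ‖θ (a n) + t‖) atTop (𝓝 (2 * ‖t‖)) := by
      rw [← norm_double h2]
      exact (h.add tendsto_const_nhds).norm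
    have h6 := (Real.continuousAt_logb (b := 2) (x := 2 * ‖t‖) (by positivity)).tendsto.comp h5
    have h7 : Real.logb 2 (2 * ‖t‖) = u₀ + 1 := by
      rw [Real.logb_mul (by norm_num) h3.ne']
      simp; ring
    rw [h7] at h6
    exact h6
  have h5 : ∀ᶠ n in atTop, |Real.logb 2 ‖θ (a n) + t‖ - (u₀ + 1)| < 1 / 16 ∧ 0 < ‖θ (a n) + t‖ := by
    have e1 := h4.eventually (Metric.ball_mem_nhds _ (by norm_num : (0:ℝ) < 1 / 16))
    have e2 : ∀ᶠ n in atTop, 0 < ‖θ (a n) + t‖ := by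
      have h5 : Tendsto (fun n => ‖θ (a n) + t‖) atTop (𝓝 (2 * ‖t‖)) := by
        rw [← norm_double h2]
        exact (h.add tendsto_const_nhds).norm
      exact h5.eventually (lt_mem_nhds (by positivity))
    filter_upwards [e1, e2] with n hn hn'
    exact ⟨by simpa [Real.dist_eq] using hn, hn'⟩
  obtain ⟨n, hn, hn'⟩ := h5.exists
  have e1 : ∀ᶠ m in atTop, |Real.logb 2 ‖θ (a n * a m)‖ - Real.logb 2 ‖θ (a n) + t‖| < 1 / 16 := by
    have := (Real.continuousAt_logb (b := 2) (x := ‖θ (a n) + t‖) hn'.ne').tendsto.comp (hP n).norm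
    have := this.eventually (Metric.ball_mem_nhds _ (by norm_num : (0:ℝ) < 1 / 16))
    filter_upwards [this] with m hm
    simpa [Real.dist_eq] using hm
  have e2 : ∀ᶠ m in atTop, |Real.logb 2 ‖θ (a m - a n)‖ - u₀| < 1 / 16 := by
    have := (Real.continuousAt_logb (b := 2) (x := ‖t‖) h3.ne').tendsto.comp (hD n).norm
    have := this.eventually (Metric.ball_mem_nhds _ (by norm_num : (0:ℝ) < 1 / 16))
    filter_upwards [this] with m hm
    simpa [Real.dist_eq] using hm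
  obtain ⟨m, hm1, hm2, hm⟩ := (e1.and (e2.and (eventually_gt_atTop n))).exists
  have hb := hB n m hm
  unfold B at hb
  rw [ZMod.intCast_eq_intCast_iff_dvd_sub] at hb
  set x := Real.logb 2 ‖θ (a n * a m)‖
  set y := Real.logb 2 ‖θ (a m - a n)‖
  rw [abs_lt] at hm1 hm2 hn
  have f1 := Int.floor_le (2 * x)
  have f2 := Int.lt_floor_add_one (2 * x)
  have f3 := Int.floor_le (2 * y)
  have f4 := Int.lt_floor_add_one (2 * y)
  have g1 : ((0 : ℤ) : ℝ) < ((⌊2 * x⌋ - ⌊2 * y⌋ : ℤ) : ℝ) := by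
    push_cast
    linarith [hm1.1, hm1.2, hm2.1, hm2.2, hn.1, hn.2]
  have g2 : ((⌊2 * x⌋ - ⌊2 * y⌋ : ℤ) : ℝ) < ((4 : ℤ) : ℝ) := by
    push_cast
    linarith [hm1.1, hm1.2, hm2.1, hm2.2, hn.1, hn.2]
  have g1' : 0 < ⌊2 * x⌋ - ⌊2 * y⌋ := by exact_mod_cast g1
  have g2' : ⌊2 * x⌋ - ⌊2 * y⌋ < 4 := by exact_mod_cast g2
  push_cast at hb
  omega

lemma close (a : ℕ → ℕ) (hpos : ∀ n, 0 < a n) (h : Tendsto (fun m => θ (a m)) atTop (𝓝 0))
    (K : ℕ) : ∀ᶠ m in atTop, ∃ k : ℕ, |(a m : ℤ) - 2 ^ k| * K ≤ a m := by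
  set r : ℕ → ℝ := fun m => Real.logb 2 (a m) - round (Real.logb 2 (a m)) with hr
  have h1 : Tendsto r atTop (𝓝 0) := by
    rw [tendsto_zero_iff_abs_tendsto_zero]
    have := h.norm
    simp only [norm_θ, norm_zero] at this
    exact this
  have h2 : Tendsto (fun m => (2 : ℝ) ^ (- r m)) atTop (𝓝 1) := by
    have h3 : Tendsto (fun m => (2 : ℝ) ^ (- r m)) atTop (𝓝 ((2 : ℝ) ^ (-(0:ℝ)))) := by
      exact Tendsto.rpow tendsto_const_nhds h1.neg (Or.inl (by norm_num))
    simpa using h3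
  have h3 : ∀ᶠ m in atTop, |(2 : ℝ) ^ (- r m) - 1| < 1 / (K + 1) := by
    have := h2.eventually (Metric.ball_mem_nhds _ (by positivity : (0:ℝ) < 1 / (K + 1)))
    filter_upwards [this] with m hm
    simpa [Real.dist_eq] using hm
  filter_upwards [h3] with m hm
  have hx : (0 : ℝ) < a m := by exact_mod_cast hpos m
  have h4 : (0 : ℝ) ≤ Real.logb 2 (a m) :=
    Real.logb_nonneg (by norm_num) (by exact_mod_cast hpos m)
  have h5 : 0 ≤ round (Real.logb 2 (a m)) := by
    rw [round_eq]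
    exact Int.floor_nonneg.mpr (by linarith)
  obtain ⟨k, hk⟩ := Int.eq_ofNat_of_zero_le h5
  refine ⟨k, ?_⟩
  have h6 : (a m : ℝ) * (2 : ℝ) ^ (- r m) = 2 ^ k := by
    have e1 := Real.rpow_logb (b := 2) (by norm_num) (by norm_num) hx
    conv_lhs => rw [← e1]
    rw [← Real.rpow_add (by norm_num), hr]
    simp only
    rw [hk]
    have : Real.logb 2 (a m) + -(Real.logb 2 (a m) - (((k : ℤ)) : ℝ)) = (k : ℝ) := by
      push_cast
      ring
    rw [this, Real.rpow_natCast]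
  have h7 : |(a m : ℝ) - 2 ^ k| * (K + 1) ≤ a m := by
    rw [← h6]
    have : (a m : ℝ) - a m * (2 : ℝ) ^ (- r m) = - (a m * ((2 : ℝ) ^ (- r m) - 1)) := by ring
    rw [this, abs_neg, abs_mul, abs_of_pos hx]
    have : |(2 : ℝ) ^ (- r m) - 1| * (K + 1) ≤ 1 := by
      rw [← le_div_iff₀ (by positivity)]
      exact hm.le
    nlinarith
  have h8 : |(a m : ℝ) - 2 ^ k| * K ≤ a m := by
    nlinarith [abs_nonneg ((a m : ℝ) - 2 ^ k)]
  exact_mod_cast h8

lemma two_pow_sub {i j p : ℕ} (h : 2 ^ j - 2 ^ i = 2 ^ p) : j = i + 1 := by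
  have hp : 0 < 2 ^ p := by positivity
  have h1 : 2 ^ j = 2 ^ i + 2 ^ p := by omega
  rcases lt_trichotomy i p with h2 | h2 | h2
  · exfalso
    have h3 : i < j := by
      by_contra h3
      have : 2 ^ j ≤ 2 ^ i := Nat.pow_le_pow_right (by norm_num) (by omega)
      omega
    have e1 : 2 ^ (i + 1) ∣ 2 ^ j := pow_dvd_pow _ (by omega)
    have e2 : 2 ^ (i + 1) ∣ 2 ^ p := pow_dvd_pow _ (by omega)
    have e3 : 2 ^ (i + 1) ∣ 2 ^ i := by
      rw [h1] at e1
      exact (Nat.dvd_add_left e2).mp e1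
    have := Nat.le_of_dvd (by positivity) e3
    rw [pow_succ] at this
    have : 0 < 2 ^ i := by positivity
    omega
  · subst h2
    have : 2 ^ j = 2 ^ (i + 1) := by rw [pow_succ]; omega
    exact Nat.pow_right_injective (le_refl 2) this
  · exfalso
    have h3 : p < j := by
      by_contra h3
      have : 2 ^ j ≤ 2 ^ p := Nat.pow_le_pow_right (by norm_num) (by omega)
      have : 0 < 2 ^ i := by positivity
      omega
    have e1 : 2 ^ (p + 1) ∣ 2 ^ j := pow_dvd_pow _ (by omega)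
    have e2 : 2 ^ (p + 1) ∣ 2 ^ i := pow_dvd_pow _ (by omega)
    have e3 : 2 ^ (p + 1) ∣ 2 ^ p := by
      rw [h1] at e1
      exact (Nat.dvd_add_right e2).mp e1
    have := Nat.le_of_dvd (by positivity) e3
    rw [pow_succ] at this
    omega

lemma tendsto_or_frequently (v : ℕ → ℕ) :
    Tendsto v atTop atTop ∨ ∃ v0, ∃ᶠ n in atTop, v n = v0 := by
  by_cases h : ∃ v0, ∃ᶠ n in atTop, v n = v0
  · exact Or.inr h
  · left
    push Not at h
    rw [tendsto_atTop]
    intro b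
    have h1 : ∀ᶠ n in atTop, ∀ w ∈ Finset.range b, v n ≠ w := by
      rw [Filter.eventually_all_finset]
      intro w _
      exact h w
    filter_upwards [h1] with n hn
    by_contra hlt
    exact hn (v n) (Finset.mem_range.mpr (by omega)) rfl

/-- the remaining colouring data -/
def IsPow (x : ℕ) : Prop := ∃ k : ℕ, x = 2 ^ k

def Deep (x : ℕ) : Prop := 1 ≤ (2 : ℝ) ^ (padicValNat 2 x) * ‖θ x‖

open Classical in
/-- all base colourings together -/
noncomputable def col (c1 : ℕ → Bool) (x : ℕ) : ZMod 8 × ZMod 4 × Bool × Bool × Bool :=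
  (A x, B x, decide (IsPow x), decide (Deep x), c1 x)

lemma deep_contra (a : ℕ → ℕ) (ha : StrictMono a) (hpos : ∀ n, 0 < a n)
    (h : Tendsto (fun m => θ (a m)) atTop (𝓝 0)) (hnp : ∀ n, ¬ IsPow (a n))
    (hv : Tendsto (fun n => padicValNat 2 (a n)) atTop atTop)
    (hD : ∀ n m, n < m → (Deep (a m - a n) ↔ Deep (a n * a m))) : False := by
  have ha' := atTop_of_strictMono ha
  have h0 : 0 < ‖θ (a 0)‖ := by
    rcases (norm_nonneg (θ (a 0))).lt_or_eq with h1 | h1
    · exact h1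
    · exact absurd (pow_of_norm_zero (hpos 0) h1.symm) (hnp 0)
  -- difference
  have e1 : ∀ᶠ m in atTop, (2 : ℝ) ^ (padicValNat 2 (a 0)) * ‖θ (a m - a 0)‖ < 1 := by
    have t1 := (tendsto_sub a (a 0) ha' h).norm
    have t2 := t1.const_mul ((2 : ℝ) ^ (padicValNat 2 (a 0)))
    simp only [norm_zero, mul_zero] at t2
    exact t2.eventually (gt_mem_nhds one_pos)
  have e2 : ∀ᶠ m in atTop, ‖θ (a 0)‖ / 2 < ‖θ (a 0 * a m)‖ := by
    have t1 := (tendsto_mul a hpos h 0).norm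
    rw [add_zero] at t1
    exact t1.eventually (lt_mem_nhds (by linarith))
  have e3 : ∀ᶠ m in atTop, 2 / ‖θ (a 0)‖ < (2 : ℝ) ^ (padicValNat 2 (a m)) := by
    have t1 : Tendsto (fun m => (2 : ℝ) ^ (padicValNat 2 (a m))) atTop atTop :=
      (tendsto_pow_atTop_atTop_of_one_lt (by norm_num : (1:ℝ) < 2)).comp hv
    exact t1.eventually_gt_atTop _
  have e4 : ∀ᶠ m in atTop, padicValNat 2 (a 0) < padicValNat 2 (a m) :=
    hv.eventually_gt_atTop _
  obtain ⟨m, h1, h2, h3, h4, hm⟩ := (e1.and (e2.and (e3.and (e4.and (eventually_gt_atTop 0))))).exists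
  have hlt := ha hm
  have f1 : ¬ Deep (a m - a 0) := by
    unfold Deep
    rw [not_le]
    refine lt_of_le_of_lt ?_ h1
    refine mul_le_mul_of_nonneg_right ?_ (norm_nonneg _)
    refine pow_le_pow_right₀ (by norm_num) ?_
    by_contra hcon
    rw [not_le] at hcon
    have g1 : 2 ^ (padicValNat 2 (a 0) + 1) ∣ a m - a 0 :=
      (padicValNat_dvd_iff_le (by omega)).mpr hcon
    have g2 : 2 ^ (padicValNat 2 (a 0) + 1) ∣ a m :=
      (padicValNat_dvd_iff_le (hpos m).ne').mpr h4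
    have g3 : 2 ^ (padicValNat 2 (a 0) + 1) ∣ a 0 := by
      have : a m = (a m - a 0) + a 0 := by omega
      rw [this] at g2
      exact (Nat.dvd_add_right g1).mp g2
    have := (padicValNat_dvd_iff_le (hpos 0).ne').mp g3
    omega
  have f2 : Deep (a 0 * a m) := by
    unfold Deep
    rw [padicValNat.mul (hpos 0).ne' (hpos m).ne', pow_add]
    have g1 : (1 : ℝ) ≤ 2 ^ (padicValNat 2 (a 0)) := one_le_pow₀ (by norm_num)
    have g2 : 2 / ‖θ (a 0)‖ * (‖θ (a 0)‖ / 2) ≤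
        (2 : ℝ) ^ (padicValNat 2 (a m)) * ‖θ (a 0 * a m)‖ := by
      gcongr
    have g3 : 2 / ‖θ (a 0)‖ * (‖θ (a 0)‖ / 2) = 1 := by
      field_simp
    rw [g3] at g2
    rw [mul_assoc]
    nlinarith
  exact f1 ((hD 0 m hm).mpr f2)

theorem assembly (F : ℕ → ℕ) (c1 : ℕ → Bool)
    (hc1 : ∀ s b, V F s b → c1 (b - s) ≠ c1 (s * b)) :
    ¬ (∀ (k : ℕ) (c : ℕ → Fin k),
      ∃ (a : ℕ → ℕ) (i : Fin k),
        StrictMono a ∧ 0 < a 0 ∧
        ∀ n m : ℕ, n < m → c (a m - a n) = i ∧ c (a n * a m) = i) := by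
  intro H
  obtain ⟨a, i, ha, ha0, hcol⟩ := H _ (fun x => (Fintype.equivFin _) (col c1 x))
  have hpos : ∀ n, 0 < a n := fun n => lt_of_lt_of_le ha0 (ha.monotone (Nat.zero_le n))
  have hcol' : ∀ n m, n < m → col c1 (a m - a n) = (Fintype.equivFin _).symm i ∧
      col c1 (a n * a m) = (Fintype.equivFin _).symm i := by
    intro n m hnm
    obtain ⟨h1, h2⟩ := hcol n m hnm
    exact ⟨by rw [← h1]; simp, by rw [← h2]; simp⟩
  clear hcol H
  set j := (Fintype.equivFin (ZMod 8 × ZMod 4 × Bool × Bool × Bool)).symm i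
  -- no products are powers of two
  have hprod : ∀ n m, n < m → ¬ IsPow (a n * a m) := by
    intro n m hnm hpow
    have hj : j.2.2.1 = true := by
      rw [← (hcol' n m hnm).2]
      simp [col, hpow]
    have hall : ∀ n m, n < m → IsPow (a m - a n) ∧ IsPow (a n * a m) := by
      intro n m hnm
      have h1 := (hcol' n m hnm).1
      have h2 := (hcol' n m hnm).2
      rw [← h1] at hj
      have hj2 := hj
      rw [h1, ← h2] at hj2
      exact ⟨by simpa [col] using hj, by simpa [col] using hj2⟩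
    have hp : ∀ n, IsPow (a n) := by
      intro n
      obtain ⟨k, hk⟩ := (hall n (n + 1) (Nat.lt_succ_self n)).2
      obtain ⟨l, _, hl⟩ := (Nat.dvd_prime_pow Nat.prime_two).1 (Dvd.intro _ hk)
      exact ⟨l, hl⟩
    obtain ⟨k0, h0⟩ := hp 0
    obtain ⟨k1, h1⟩ := hp 1
    obtain ⟨k2, h2⟩ := hp 2
    obtain ⟨p01, hp01⟩ := (hall 0 1 (by norm_num)).1
    obtain ⟨p12, hp12⟩ := (hall 1 2 (by norm_num)).1
    obtain ⟨p02, hp02⟩ := (hall 0 2 (by norm_num)).1
    rw [h0, h1] at hp01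
    rw [h1, h2] at hp12
    rw [h0, h2] at hp02
    have := two_pow_sub hp01
    have := two_pow_sub hp12
    have := two_pow_sub hp02
    omega
  have hev : ∃ n0, ∀ n, n0 ≤ n → ¬ IsPow (a n) := by
    by_cases hex : ∃ n1, IsPow (a n1)
    · obtain ⟨n1, k1, hn1⟩ := hex
      refine ⟨n1 + 1, fun n hn hpow => ?_⟩
      obtain ⟨k, hk⟩ := hpow
      exact hprod n1 n (by omega) ⟨k1 + k, by rw [hn1, hk, pow_add]⟩
    · push Not at hex
      exact ⟨0, fun n _ => hex n⟩
  obtain ⟨n0, hn0⟩ := hev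
  obtain ⟨t, φ, hφ, hlim⟩ := CompactSpace.tendsto_subseq (fun n => θ (a (n + n0)))
  set b : ℕ → ℕ := fun n => a (φ n + n0) with hb
  have hbmono : StrictMono b := by
    intro x y hxy
    exact ha (by have := hφ hxy; omega)
  have hbpos : ∀ n, 0 < b n := fun n => hpos _
  have hbnp : ∀ n, ¬ IsPow (b n) := fun n => hn0 _ (by omega)
  have hblim : Tendsto (fun n => θ (b n)) atTop (𝓝 t) := hlim
  have hbcol : ∀ n m, n < m → col c1 (b m - b n) = col c1 (b n * b m) := by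
    intro n m hnm
    have := hcol' (φ n + n0) (φ m + n0) (by have := hφ hnm; omega)
    rw [this.1, this.2]
  have hA : ∀ n m, n < m → A (b m - b n) = A (b n * b m) := fun n m hnm =>
    congrArg (fun z => z.1) (hbcol n m hnm)
  have hB : ∀ n m, n < m → B (b m - b n) = B (b n * b m) := fun n m hnm =>
    congrArg (fun z => z.2.1) (hbcol n m hnm)
  have hD : ∀ n m, n < m → (Deep (b m - b n) ↔ Deep (b n * b m)) := fun n m hnm => by
    have := congrArg (fun z => z.2.2.2.1) (hbcol n m hnm)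
    simpa [col] using this
  have hC : ∀ n m, n < m → c1 (b m - b n) = c1 (b n * b m) := fun n m hnm =>
    congrArg (fun z => z.2.2.2.2) (hbcol n m hnm)
  have ht : t = 0 := circle b hbmono hbpos hblim hA hB
  subst ht
  rcases tendsto_or_frequently (fun n => padicValNat 2 (b n)) with hv | ⟨v, hv⟩
  · exact deep_contra b hbmono hbpos hblim hbnp hv hD
  · have hb' := atTop_of_strictMono hbmono
    obtain ⟨n, hn1, hn2⟩ := (hv.and_eventually (hb'.eventually_ge_atTop (2 ^ (2 * v)))).exists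
    obtain ⟨m, hm1, hm2, hm3, hm4⟩ := (hv.and_eventually
      ((hb'.eventually_ge_atTop (b n * F (b n))).and
        ((close b hbpos hblim (F (b n))).and (eventually_gt_atTop n)))).exists
    refine hc1 (b n) (b m) ⟨hbpos n, ?_, ?_, ?_, hm2, hm3⟩ (hC n m hm4)
    · intro k hk
      exact hbnp n ⟨k, hk⟩
    · rw [hn1]; exact hn2
    · rw [hn1]; exact hm1

end Pool.Agent.H27.DiffProd
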