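import Pool.Agent.H27.DiffProd.Walk

set_option autoImplicit false

namespace Pool.Agent.H27.DiffProd

def Claim (k : ℕ) : Prop := ∀ v w l, W v l w → l ≠ [] → Red l → (∀ p ∈ l, p.2 ≤ k) →
  l.length ≤ k ∧ T l 0 ≠ 0 ∧ v ≠ w

lemma split_first {L : ℕ} (l : List Stp) (h : ¬ ∀ p ∈ l, p.2 ≤ L) :
    ∃ l₁ p l₂, l = l₁ ++ p :: l₂ ∧ (∀ q ∈ l₁, q.2 ≤ L) ∧ L < p.2 := by
  induction l with
  | nil => exact absurd (by simp) h
  | cons p l ih =>
    by_cases hp : p.2 ≤ L
    · have : ¬ ∀ p ∈ l, p.2 ≤ L := by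
        intro hcon
        apply h
        intro q hq
        rcases List.mem_cons.mp hq with rfl | hq
        · exact hp
        · exact hcon q hq
      obtain ⟨l₁, q, l₂, h1, h2, h3⟩ := ih this
      refine ⟨p :: l₁, q, l₂, by rw [h1]; rfl, ?_, h3⟩
      intro x hx
      rcases List.mem_cons.mp hx with rfl | hx
      · exact hp
      · exact h2 x hx
    · exact ⟨[], p, l, rfl, by simp, by omega⟩

lemma odd_part {s : ℕ} (hs : 3 ≤ s) (h : 2 ^ (2 * padicValNat 2 s) ≤ s) :
    ∃ s₁, s₁ ∣ s ∧ Nat.Coprime s₁ 2 ∧ s ≤ s₁ ^ 2 := by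
  obtain ⟨s₁, hs₁⟩ : 2 ^ padicValNat 2 s ∣ s := pow_padicValNat_dvd
  refine ⟨s₁, Dvd.intro_left _ hs₁.symm, ?_, ?_⟩
  · rw [Nat.coprime_two_right]
    rw [← Nat.not_even_iff_odd, even_iff_two_dvd]
    rintro ⟨t, ht⟩
    have h1 : ¬ 2 ^ (padicValNat 2 s + 1) ∣ s := pow_succ_padicValNat_not_dvd (by omega)
    apply h1
    refine ⟨t, ?_⟩
    rw [pow_succ, mul_assoc, ← ht]
    exact hs₁
  · have hpos : 0 < 2 ^ padicValNat 2 s := by positivity
    have h2 : 2 ^ padicValNat 2 s * 2 ^ padicValNat 2 s ≤ 2 ^ padicValNat 2 s * s₁ := by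
      rw [← hs₁, ← pow_add, ← two_mul]; exact h
    have h3 : 2 ^ padicValNat 2 s ≤ s₁ := Nat.le_of_mul_le_mul_left h2 hpos
    calc s = 2 ^ padicValNat 2 s * s₁ := hs₁
      _ ≤ s₁ * s₁ := Nat.mul_le_mul_right _ h3
      _ = s₁ ^ 2 := by ring

lemma W_coef {l : List Stp} {v w : ℕ} (h : W v l w) :
    (cQ l : ℤ) * w = cP l * v + cR l := by
  have h1 := W_labels l v w h
  have h2 := T_coef l h1 v
  rw [W_T l v w h] at h2
  exact_mod_cast h2

/-- from the low end of an edge with maximal label, every walk goes up, and then all labels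
are tiny compared with the first one. -/
lemma arm {M : ℕ} (IH : ∀ j < M, Claim j) {y : ℕ} (hy : V F M (y + M)) (r : List Stp) (w : ℕ)
    (hW : W y r w) (hred : Red r) (hM : ∀ p ∈ r, p.2 ≤ M) :
    r = [] ∨ ∃ s r', r = (true, s) :: r' ∧ ∀ p ∈ r', p.2 ≤ lam s := by
  obtain ⟨hy0, hy1, hy2, hy3, hy4, k, hk⟩ := hy
  match r, hW, hred, hM with
  | [], _, _, _ => exact Or.inl rfl
  | (false, a) :: r', hW, hred, hM =>
    exfalso
    obtain ⟨x, hV, hyx, _⟩ := hW
    have ha := V_ge hV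
    have haM : a ≤ M := hM _ (List.mem_cons_self)
    obtain ⟨ha0, ha1, ha2, ha3, ha4, k', hk'⟩ := hV
    have hG : a < G a := lt_trans (lt_Bd a) (Bd_lt_G a)
    have hF : 40 * a * 1 * 1 ^ 2 < F a := by
      unfold F
      have : 1 < G a ^ 2 := by nlinarith
      nlinarith
    have := num (M := M) (y := y) (s := 1) (t := a) (k := k) (k' := k') (c := x + a) (P := 1)
      (Q' := a) (B := 1) (R' := -1) (by omega) haM (le_refl 1) (by omega) (le_refl 1) (le_refl 1)
      (by omega) (by simp; omega) hF hy4 hk hk' (by rw [hyx]; push_cast; ring)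
    have hdvd : a ∣ 2 ^ k := ⟨2 ^ k', by simpa using this⟩
    obtain ⟨j, _, hj⟩ := (Nat.dvd_prime_pow Nat.prime_two).1 hdvd
    exact ha1 j hj
  | (true, s) :: r', hW, hred, hM =>
    refine Or.inr ⟨s, r', rfl, ?_⟩
    by_contra hcon
    obtain ⟨l, ⟨d, t⟩, l', hr', hl, ht⟩ := split_first r' hcon
    subst hr'
    have ht' : lam s < t := ht
    obtain ⟨hVs, hW'⟩ := hW
    have hs3 := V_ge hVs
    have hsM : s ≤ M := hM _ (List.mem_cons_self)
    have htM : t ≤ M := hM (d, t) (by simp)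
    obtain ⟨u, hu1, hu2⟩ := (W_append _ _ _ _).mp hW'
    have hl3 := W_labels _ _ _ hu1
    have hredl : Red l := by
      unfold Red at *
      exact (hred.tail).left_of_append
    have hlam : lam s < M := lt_of_lt_of_le (lam_lt hs3) hsM
    have hcl : l ≠ [] → l.length ≤ lam s ∧ T l 0 ≠ 0 := by
      intro hne
      have := IH _ hlam _ _ l hu1 hne hredl hl
      exact ⟨this.1, this.2.1⟩
    have hlen : l.length ≤ lam s := by
      by_cases hne : l = []
      · simp [hne]
      · exact (hcl hne).1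
    obtain ⟨hPB, hQB, hRB⟩ := coef_Bd (lam s) l hl3 hl hlen
    have hP1 := cP_pos l hl3
    have hQ1 := cQ_pos l hl3
    have hcoef := W_coef hu1
    set P := cP l with hPdef
    set Q := cQ l with hQdef
    set R := cR l with hRdef
    set B := Bd (lam s) with hB
    have hBpos : 1 ≤ B := Bd_pos _
    have hBsq : B ^ 2 < s := Bd_lam_sq hs3
    obtain ⟨s₁, hs1, hs2, hs3'⟩ := odd_part hs3 hVs.2.2.1
    have hBs₁ : B < s₁ := by
      by_contra hge
      push Not at hge
      have : s₁ ^ 2 ≤ B ^ 2 := Nat.pow_le_pow_left hge 2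
      omega
    have ht1 : 1 ≤ t := by omega
    have hFb := F_big hs3 ht'
    rw [← hB] at hFb
    have hBt : B ≤ t * B := Nat.le_mul_of_pos_left _ (by omega)
    have hBt' : (B : ℤ) ≤ t * B := by exact_mod_cast hBt
    have hQB' : (Q : ℤ) ≤ B := by exact_mod_cast hQB
    cases d with
    | true =>
      obtain ⟨hVt, _⟩ := hu2
      obtain ⟨_, _, _, _, _, k', hk'⟩ := hVt
      have hR' : |R + t * Q| ≤ 2 * t * B := by
        calc |R + t * Q| ≤ |R| + |(t : ℤ) * Q| := abs_add_le _ _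
          _ ≤ B + t * B := by
              rw [abs_of_nonneg (by positivity : (0 : ℤ) ≤ (t : ℤ) * Q)]
              gcongr
          _ ≤ 2 * t * B := by linarith
      have := num (M := M) (y := y) (s := s) (t := t) (k := k) (k' := k') (c := u + t) (P := P)
        (Q' := Q) (B := B) (R' := R + t * Q) hsM htM (by omega) ht1 hP1 hPB
        (hQB.trans hBt) hR' hFb hy4 hk hk' (by push_cast at hcoef ⊢; linarith)
      have h5 : s₁ ∣ Q * 2 ^ k' := by
        rw [← this]
        exact Dvd.dvd.mul_right (Dvd.dvd.mul_left hs1 _) _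
      have h6 : s₁ ∣ Q := (Nat.Coprime.pow_right k' hs2).dvd_of_dvd_mul_right h5
      have := Nat.le_of_dvd hQ1 h6
      omega
    | false =>
      obtain ⟨x, hVt, hux, _⟩ := hu2
      have hVt' := hVt
      obtain ⟨_, _, _, hvt, _, k', hk'⟩ := hVt
      have hR' : |R| ≤ 2 * t * B := by
        have : (0 : ℤ) ≤ t * B := by positivity
        linarith
      have heq : (P : ℤ) * s * (y + s) + R = ((t * Q : ℕ) : ℤ) * ((x + t : ℕ) : ℤ) := by
        have h5 : (u : ℤ) = t * (x + t) := by rw [hux]; push_cast; ring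
        rw [h5] at hcoef
        push_cast at hcoef ⊢
        linarith
      have hnum := num (M := M) (y := y) (s := s) (t := t) (k := k) (k' := k') (c := x + t)
        (P := P) (Q' := t * Q) (B := B) (R' := R) hsM htM (by omega) ht1 hP1 hPB
        (Nat.mul_le_mul_left _ hQB) hR' hFb hy4 hk hk' heq
      have h5 : s₁ ∣ (t * Q) * 2 ^ k' := by
        rw [← hnum]
        exact Dvd.dvd.mul_right (Dvd.dvd.mul_left hs1 _) _
      have h6 : s₁ ∣ t * Q := (Nat.Coprime.pow_right k' hs2).dvd_of_dvd_mul_right h5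
      have h7 : (s₁ : ℤ) ∣ R := by
        have e : R = ((t * Q : ℕ) : ℤ) * ((x + t : ℕ) : ℤ) - (s : ℤ) * (P * (y + s)) := by
          rw [← heq]; ring
        rw [e]
        refine dvd_sub (Dvd.dvd.mul_right (by exact_mod_cast h6) _)
          (Dvd.dvd.mul_right (by exact_mod_cast hs1) _)
      have hR0 : R = 0 := by
        refine Int.eq_zero_of_abs_lt_dvd h7 ?_
        have : (B : ℤ) < s₁ := by exact_mod_cast hBs₁
        linarith
      have hl0 : l = [] := by
        by_contra hne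
        apply (hcl hne).2
        have h8 := T_coef l hl3 0
        rw [← hRdef, hR0] at h8
        simp only [mul_zero, Int.cast_zero, add_zero] at h8
        rcases mul_eq_zero.mp h8 with h9 | h9
        · exfalso
          have : cQ l = 0 := by exact_mod_cast h9
          omega
        · exact h9
      have hP' : P = 1 := by rw [hPdef, hl0]; rfl
      have hQ' : Q = 1 := by rw [hQdef, hl0]; rfl
      rw [hP', hQ', one_mul, mul_one] at hnum
      rw [hP', hQ', hR0] at heq
      have hz : s * (y + s) = t * (x + t) := by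
        have : ((s * (y + s) : ℕ) : ℤ) = ((t * (x + t) : ℕ) : ℤ) := by
          push_cast at heq ⊢
          linarith
        exact_mod_cast this
      have hv := congrArg (padicValNat 2) hz
      rw [padicValNat.mul (by omega) (by omega), padicValNat.mul (by omega) (by omega),
        hVs.2.2.2.1, hvt] at hv
      have hv' : padicValNat 2 s = padicValNat 2 t := by omega
      have hw := congrArg (padicValNat 2) hnum
      rw [padicValNat.mul (by omega) (by positivity), padicValNat.mul (by omega) (by positivity),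
        padicValNat.prime_pow, padicValNat.prime_pow, hv'] at hw
      have hkk : k = k' := by omega
      rw [hkk] at hnum
      have hst : s = t := Nat.eq_of_mul_eq_mul_right (by positivity) hnum
      rw [hl0, hst] at hred
      unfold Red at hred
      simp [flp] at hred

/-- data of an arm -/
lemma arm_data {M : ℕ} (IH : ∀ j < M, Claim j) {y w s : ℕ} {r' : List Stp}
    (hW : W y ((true, s) :: r') w) (hred : Red ((true, s) :: r'))
    (hsM : s ≤ M) (hr' : ∀ p ∈ r', p.2 ≤ lam s) :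
    3 ≤ s ∧ r'.length ≤ lam s ∧ ∃ (P Q : ℕ) (R : ℤ), 1 ≤ P ∧ 1 ≤ Q ∧ 2 * P < s ∧ 2 * Q < s ∧
      2 * |R| < s ∧ (∀ x : ℚ, Q * T ((true, s) :: r') x = P * (s * (x + s)) + R) ∧
      (Q : ℤ) * w = P * (s * (y + s)) + R := by
  obtain ⟨hVs, hW'⟩ := hW
  have hs3 := V_ge hVs
  have hl3 := W_labels _ _ _ hW'
  have hredl : Red r' := by
    unfold Red at *
    exact hred.tail
  have hlam : lam s < M := lt_of_lt_of_le (lam_lt hs3) hsM
  have hlen : r'.length ≤ lam s := by
    by_cases hne : r' = []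
    · simp [hne]
    · exact (IH _ hlam _ _ r' hW' hne hredl hr').1
  obtain ⟨hPB, hQB, hRB⟩ := coef_Bd (lam s) r' hl3 hr' hlen
  have h2B := two_Bd_lam hs3
  refine ⟨hs3, hlen, cP r', cQ r', cR r', cP_pos r' hl3, cQ_pos r' hl3, by omega, by omega, ?_, ?_, ?_⟩
  · have : (2 * (Bd (lam s) : ℤ)) < s := by exact_mod_cast h2B
    linarith
  · intro x
    simp only [T]
    exact T_coef r' hl3 _
  · have := W_coef hW'
    push_cast at this
    exact this

lemma half {P a : ℕ} {R : ℤ} {z : ℚ} (hP : 1 ≤ P) (hR : 2 * |R| < a)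
    (h : P * (a * z) + R = 0) : |z| < 1 / 2 := by
  have hP' : (1 : ℚ) ≤ P := by exact_mod_cast hP
  have hR' : 2 * |(R : ℚ)| < a := by exact_mod_cast hR
  have ha : (0 : ℚ) < a := lt_of_le_of_lt (by positivity) hR'
  have h1 : |(P : ℚ) * (a * z)| = |(R : ℚ)| := by
    have : (P : ℚ) * (a * z) = - R := by linarith
    rw [this, abs_neg]
  rw [abs_mul, abs_mul, abs_of_pos ha, abs_of_pos (by linarith : (0 : ℚ) < P)] at h1
  have h2 : (a : ℚ) * |z| ≤ P * (a * |z|) := le_mul_of_one_le_left (by positivity) hP'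
  have h3 : (a : ℚ) * |z| < a * (1 / 2) := by linarith
  exact lt_of_mul_lt_mul_left h3 ha.le

lemma nat_eq_of_close {a b : ℕ} (h : |(a : ℚ) - b| < 1) : a = b := by
  have h1 : |(a : ℤ) - b| < 1 := by exact_mod_cast h
  rw [Int.abs_lt_one_iff] at h1
  omega

lemma arm_T0 {P Q s : ℕ} {R : ℤ} {τ : ℚ} (hP : 1 ≤ P) (hR : 2 * |R| < s)
    (h : (Q : ℚ) * τ = P * (s * (0 + s)) + R) : τ ≠ 0 := by
  intro h0
  rw [h0, mul_zero] at h
  have h1 := half (z := (0 + (s : ℚ))) hP hR h.symm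
  rw [zero_add, abs_of_nonneg (by positivity)] at h1
  have : (s : ℚ) < ((1 : ℕ) : ℚ) := by push_cast; linarith
  have : s < 1 := by exact_mod_cast this
  have h0 : s = 0 := by omega
  rw [h0] at hR
  have := abs_nonneg R
  push_cast at hR
  omega

lemma arm_ne {P Q s y w : ℕ} {R : ℤ} (hP : 1 ≤ P) (hQ : 2 * Q < s) (hR : 2 * |R| < s)
    (h : (Q : ℤ) * w = P * (s * (y + s)) + R) : y ≠ w := by
  rintro rfl
  have hP' : (1 : ℤ) ≤ P := by exact_mod_cast hP
  have hQ' : 2 * (Q : ℤ) < s := by exact_mod_cast hQ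
  have h1 : (s : ℤ) * (y + s) ≤ P * (s * (y + s)) := le_mul_of_one_le_left (by positivity) hP'
  have h2 := neg_abs_le R
  have hs : (0 : ℤ) < s := by
    have := abs_nonneg R
    linarith
  have h3 : (Q : ℤ) * y ≤ s * y := by
    have : (Q : ℤ) ≤ s := by linarith [Int.natCast_nonneg Q]
    gcongr
  have h4 : (s : ℤ) ≤ s * s := by nlinarith
  nlinarith

lemma F_ge (M : ℕ) (hM : 3 ≤ M) : 40 * M ^ 5 ≤ F M := by
  unfold F
  have h1 : M ^ 2 ≤ G M := by
    unfold G Bd
    calc M ^ 2 ≤ (M + 1) ^ 2 := Nat.pow_le_pow_left (by omega) 2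
      _ ≤ (M + 1) ^ ((M + 2) * 2) := Nat.pow_le_pow_right (by omega) (by omega)
      _ = ((M + 1) ^ (M + 2)) ^ 2 := by rw [pow_mul]
      _ ≤ 4 * ((M + 1) ^ (M + 2)) ^ 2 := by omega
  calc 40 * M ^ 5 = 40 * M * (M ^ 2) ^ 2 := by ring
    _ ≤ 40 * M * G M ^ 2 := by gcongr

lemma two_arms {M y u a b P₁ Q₁ P₂ Q₂ : ℕ} {R₁ R₂ : ℤ} (hM : 3 ≤ M) (hy : M * F M ≤ y + M)
    (haM : a ≤ M) (hbM : b ≤ M)
    (hP1 : 1 ≤ P₁) (hQ1 : 1 ≤ Q₁) (hP1' : 2 * P₁ < a) (hQ1' : 2 * Q₁ < a) (hR1 : 2 * |R₁| < a)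
    (hP2 : 1 ≤ P₂) (hQ2 : 1 ≤ Q₂) (hP2' : 2 * P₂ < b) (hQ2' : 2 * Q₂ < b) (hR2 : 2 * |R₂| < b)
    (h1 : (Q₁ : ℤ) * u = P₁ * (a * (y + a)) + R₁) (h2 : (Q₂ : ℤ) * u = P₂ * (b * (y + b)) + R₂) :
    a = b := by
  have hF := F_ge M hM
  have hy' : 40 * M ^ 6 ≤ y + M := by
    calc 40 * M ^ 6 = M * (40 * M ^ 5) := by ring
      _ ≤ M * F M := Nat.mul_le_mul_left _ hF
      _ ≤ y + M := hy
  zify at *
  have hM0 : (0 : ℤ) ≤ M := by positivity
  have hM1 : (1 : ℤ) ≤ M := by linarith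
  have hpows : (M : ℤ) ≤ M ^ 4 ∧ (M : ℤ) ^ 4 ≤ M ^ 6 ∧ (M : ℤ) ^ 2 ≤ M ^ 4 := by
    refine ⟨?_, ?_, ?_⟩
    · calc (M : ℤ) = M ^ 1 := by ring
        _ ≤ M ^ 4 := pow_le_pow_right₀ hM1 (by norm_num)
    · exact pow_le_pow_right₀ hM1 (by norm_num)
    · exact pow_le_pow_right₀ hM1 (by norm_num)
  have hyM : 4 * (M : ℤ) ^ 4 < y := by linarith [hpows.1, hpows.2.1]
  -- cross multiplication
  have hcross : (Q₂ : ℤ) * (P₁ * (a * (y + a)) + R₁) = Q₁ * (P₂ * (b * (y + b)) + R₂) := by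
    rw [← h1, ← h2]; ring
  have hbound : ∀ (Q P c : ℤ) (R : ℤ), 0 ≤ Q → 0 ≤ P → 0 ≤ c → Q ≤ M → P ≤ M → c ≤ M → |R| ≤ M →
      |Q * (P * c ^ 2 + R)| ≤ 2 * M ^ 4 := by
    intro Q P c R hQ hP hc hQM hPM hcM hRM
    rw [abs_mul, abs_of_nonneg hQ]
    calc Q * |P * c ^ 2 + R| ≤ Q * (|P * c ^ 2| + |R|) := by
          gcongr; exact abs_add_le _ _
      _ = Q * (P * c ^ 2 + |R|) := by rw [abs_of_nonneg (by positivity : 0 ≤ P * c ^ 2)]
      _ ≤ M * (M * M ^ 2 + M) := by gcongr
      _ = M ^ 4 + M ^ 2 := by ring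
      _ ≤ 2 * M ^ 4 := by linarith [hpows.2.2]
  have hb1 := hbound Q₁ P₂ b R₂ (by positivity) (by positivity) (by positivity) (by linarith)
    (by linarith) hbM (by linarith [abs_nonneg R₂])
  have hb2 := hbound Q₂ P₁ a R₁ (by positivity) (by positivity) (by positivity) (by linarith)
    (by linarith) haM (by linarith [abs_nonneg R₁])
  set N : ℤ := Q₂ * P₁ * a - Q₁ * P₂ * b with hN
  have hNy : N * y = Q₁ * (P₂ * b ^ 2 + R₂) - Q₂ * (P₁ * a ^ 2 + R₁) := by
    rw [hN]; linarith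
  have hN0 : N = 0 := by
    by_contra hne
    have h5 : 1 ≤ |N| := Int.one_le_abs hne
    have h6 : |N * y| ≤ 4 * M ^ 4 := by
      rw [hNy]
      calc |(Q₁ : ℤ) * (P₂ * b ^ 2 + R₂) - Q₂ * (P₁ * a ^ 2 + R₁)|
          ≤ |(Q₁ : ℤ) * (P₂ * b ^ 2 + R₂)| + |(Q₂ : ℤ) * (P₁ * a ^ 2 + R₁)| := abs_sub _ _
        _ ≤ 4 * M ^ 4 := by linarith
    rw [abs_mul, abs_of_nonneg (by positivity : (0 : ℤ) ≤ (y : ℤ))] at h6
    have h7 : (1 : ℤ) * y ≤ |N| * y := by gcongr
    linarith
  rw [hN0, zero_mul] at hNy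
  -- the common slope
  set K : ℤ := Q₂ * P₁ * a with hK
  have hK1 : K = Q₂ * P₁ * a := hK
  have hK2 : K = Q₁ * P₂ * b := by rw [hN] at hN0; linarith
  have hKd : K * (b - a) = Q₂ * R₁ - Q₁ * R₂ := by
    have e1 : (Q₁ : ℤ) * (P₂ * b ^ 2 + R₂) = K * b + Q₁ * R₂ := by rw [hK2]; ring
    have e2 : (Q₂ : ℤ) * (P₁ * a ^ 2 + R₁) = K * a + Q₂ * R₁ := by rw [hK1]; ring
    rw [e1, e2] at hNy
    linarith
  have ha0 : (0 : ℤ) < a := by linarith
  have hb0 : (0 : ℤ) < b := by linarith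
  have hKpos : 0 < K := by
    rw [hK1]
    have : (0 : ℤ) < Q₂ := by linarith
    have : (0 : ℤ) < P₁ := by linarith
    positivity
  have e1 : 2 * |(Q₂ : ℤ) * R₁| < K := by
    rw [abs_mul, abs_of_nonneg (by positivity : (0 : ℤ) ≤ (Q₂ : ℤ)), hK1]
    have t1 : (Q₂ : ℤ) * (2 * |R₁|) < Q₂ * a := by gcongr
    have t2 : (Q₂ : ℤ) * a ≤ Q₂ * P₁ * a := by
      have : (Q₂ : ℤ) * 1 ≤ Q₂ * P₁ := by gcongr
      rw [mul_one] at this
      gcongr
    linarith
  have e2 : 2 * |(Q₁ : ℤ) * R₂| < K := by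
    rw [abs_mul, abs_of_nonneg (by positivity : (0 : ℤ) ≤ (Q₁ : ℤ)), hK2]
    have t1 : (Q₁ : ℤ) * (2 * |R₂|) < Q₁ * b := by gcongr
    have t2 : (Q₁ : ℤ) * b ≤ Q₁ * P₂ * b := by
      have : (Q₁ : ℤ) * 1 ≤ Q₁ * P₂ := by gcongr
      rw [mul_one] at this
      gcongr
    linarith
  have e3 : |K * (b - a)| < K * 1 := by
    rw [hKd]
    calc |(Q₂ : ℤ) * R₁ - Q₁ * R₂| ≤ |(Q₂ : ℤ) * R₁| + |(Q₁ : ℤ) * R₂| := abs_sub _ _
      _ < K * 1 := by linarith
  rw [abs_mul, abs_of_pos hKpos] at e3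
  have e4 := lt_of_mul_lt_mul_left e3 hKpos.le
  rw [Int.abs_lt_one_iff] at e4
  linarith

lemma star {M : ℕ} (IH : ∀ j < M, Claim j) {y : ℕ} (hy : V F M (y + M)) (r₁ r₂ : List Stp)
    (v w : ℕ) (hW1 : W y r₁ v) (hW2 : W y r₂ w) (hr1 : Red r₁) (hr2 : Red r₂)
    (hM1 : ∀ p ∈ r₁, p.2 ≤ M) (hM2 : ∀ p ∈ r₂, p.2 ≤ M) (hne : r₁ ≠ [] ∨ r₂ ≠ [])
    (hjoin : ∀ p l₁ q l₂, r₁ = p :: l₁ → r₂ = q :: l₂ → p ≠ q) :
    r₁.length + r₂.length ≤ M ∧ T (rev r₁ ++ r₂) 0 ≠ 0 ∧ v ≠ w := by
  have hM3 := V_ge hy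
  have hl1 := W_labels _ _ _ hW1
  have hT1 : ∀ x, T r₁ (T (rev r₁) x) = x := by
    intro x
    have := T_rev (rev r₁) (by
      intro p hp
      have := hl1 _ (mem_rev.mp hp)
      simpa [flp] using this) x
    rwa [rev_rev] at this
  rcases arm IH hy r₁ v hW1 hr1 hM1 with h1 | ⟨a, r₁', h1, ha⟩
  · rcases arm IH hy r₂ w hW2 hr2 hM2 with h2 | ⟨b, r₂', h2, hb⟩
    · simp [h1, h2] at hne
    · subst h1 h2
      obtain ⟨hb3, hlen, P, Q, R, hP, hQ, hP', hQ', hR, hT, hw⟩ :=
        arm_data IH hW2 hr2 (hM2 _ (List.mem_cons_self)) hb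
      have hbM : b ≤ M := hM2 _ (List.mem_cons_self)
      have := two_lam hb3
      simp only [W] at hW1
      subst hW1
      refine ⟨by simp only [List.length_nil, List.length_cons]; omega, ?_, arm_ne hP hQ' hR hw⟩
      simp only [rev, List.map_nil, List.reverse_nil, List.nil_append]
      exact arm_T0 hP hR (hT 0)
  · rcases arm IH hy r₂ w hW2 hr2 hM2 with h2 | ⟨b, r₂', h2, hb⟩
    · subst h1 h2
      obtain ⟨hb3, hlen, P, Q, R, hP, hQ, hP', hQ', hR, hT, hw⟩ :=
        arm_data IH hW1 hr1 (hM1 _ (List.mem_cons_self)) ha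
      have haM : a ≤ M := hM1 _ (List.mem_cons_self)
      have := two_lam hb3
      simp only [W] at hW2
      subst hW2
      refine ⟨by simp only [List.length_nil, List.length_cons]; omega, ?_,
        (arm_ne hP hQ' hR hw).symm⟩
      rw [List.append_nil]
      intro h0
      have h3 := hT1 0
      rw [h0] at h3
      exact arm_T0 hP hR (hT 0) h3
    · subst h1 h2
      have haM : a ≤ M := hM1 _ (List.mem_cons_self)
      have hbM : b ≤ M := hM2 _ (List.mem_cons_self)
      have hab : a ≠ b := by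
        have := hjoin _ _ _ _ rfl rfl
        intro h; apply this; rw [h]
      obtain ⟨ha3, hlen1, P₁, Q₁, R₁, hP1, hQ1, hP1', hQ1', hR1, hT1', hw1⟩ :=
        arm_data IH hW1 hr1 haM ha
      obtain ⟨hb3, hlen2, P₂, Q₂, R₂, hP2, hQ2, hP2', hQ2', hR2, hT2', hw2⟩ :=
        arm_data IH hW2 hr2 hbM hb
      have := two_lam ha3
      have := two_lam hb3
      refine ⟨by simp only [List.length_cons]; omega, ?_, ?_⟩
      · intro h0
        apply hab
        rw [T_append] at h0
        have h3 := hT1 0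
        set x₀ := T (rev ((true, a) :: r₁')) 0
        have e1 := hT1' x₀
        rw [h3, mul_zero] at e1
        have e2 := hT2' x₀
        rw [h0, mul_zero] at e2
        have f1 := half hP1 hR1 e1.symm
        have f2 := half hP2 hR2 e2.symm
        apply nat_eq_of_close
        have : (a : ℚ) - b = (x₀ + a) - (x₀ + b) := by ring
        rw [this]
        calc |(x₀ + a) - (x₀ + b)| ≤ |x₀ + a| + |x₀ + b| := abs_sub _ _
          _ < 1 := by linarith
      · rintro rfl
        apply hab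
        exact two_arms hM3 hy.2.2.2.2.1 haM hbM hP1 hQ1 hP1' hQ1' hR1 hP2 hQ2 hP2' hQ2' hR2 hw1 hw2

theorem claim (k : ℕ) : Claim k := by
  induction k using Nat.strong_induction_on with
  | _ k IH =>
    intro v w l hW hne hred hlab
    by_cases hk : ∃ p ∈ l, p.2 = k
    · obtain ⟨⟨d, k'⟩, hp, hpk⟩ := hk
      have hkk : k' = k := hpk
      subst hkk
      obtain ⟨s, t, hst⟩ := List.append_of_mem hp
      -- the split
      obtain ⟨l₁, l₂, y, hl, hW1, hW2, hV⟩ : ∃ l₁ l₂ y, l = l₁ ++ l₂ ∧ W v l₁ y ∧ W y l₂ w ∧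
          V F k' (y + k') := by
        rw [hst] at hW
        obtain ⟨u, hu1, hu2⟩ := (W_append _ _ _ _).mp hW
        cases d with
        | true => exact ⟨s, (true, k') :: t, u, hst, hu1, hu2, hu2.1⟩
        | false =>
          obtain ⟨x, hx1, hx2, hx3⟩ := hu2
          refine ⟨s ++ [(false, k')], t, x, by simp [hst], ?_, hx3, hx1⟩
          rw [W_append]
          exact ⟨u, hu1, x, hx1, hx2, rfl⟩
      have hred' := hred
      unfold Red at hred'
      rw [hl] at hred'
      have hs := star IH hV (rev l₁) l₂ v w (W_rev _ _ _ hW1) hW2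
        (Red_rev hred'.left_of_append) hred'.right_of_append
        (rev_labels (fun p hp => hlab p (by rw [hl]; exact List.mem_append_left _ hp)))
        (fun p hp => hlab p (by rw [hl]; exact List.mem_append_right _ hp))
        (by
          by_contra hcon
          push Not at hcon
          rw [rev_eq_nil] at hcon
          apply hne
          rw [hl, hcon.1, hcon.2]; rfl)
        (by
          intro p m₁ q m₂ h1 h2 hpq
          have h3 : l₁ = rev m₁ ++ [flp p] := by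
            rw [← rev_cons, ← h1, rev_rev]
          rw [h3, h2] at hred'
          have h4 : q ≠ flp (flp p) := by
            have h5 := List.isChain_iff_forall_rel_of_append_cons_cons.mp hred'
            exact @h5 (flp p) q (rev m₁) m₂ (by simp)
          rw [flp_flp] at h4
          exact h4 hpq.symm)
      rw [rev_rev, rev_length, ← List.length_append, ← hl] at hs
      exact hs
    · push Not at hk
      have hk0 : 0 < k := by
        obtain ⟨p, l', hl'⟩ := List.exists_cons_of_ne_nil hne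
        have h1 := W_labels _ _ _ hW p (by rw [hl']; simp)
        have h2 := hlab p (by rw [hl']; simp)
        omega
      have := IH (k - 1) (by omega) v w l hW hne hred (by
        intro p hp
        have h1 := hlab p hp
        have h2 := hk p hp
        omega)
      exact ⟨by omega, this.2⟩

lemma cancel {u v : ℕ} {p : Stp} {l : List Stp} (h : W u (p :: flp p :: l) v) : W u l v := by
  obtain ⟨d, s⟩ := p
  cases d with
  | true =>
    obtain ⟨h1, x, h2, h3, h4⟩ := h
    have hs : 0 < s := h1.1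
    have : u + s = x + s := Nat.eq_of_mul_eq_mul_left hs h3
    have : u = x := by omega
    rw [this]; exact h4
  | false =>
    obtain ⟨x, h1, h2, h3, h4⟩ := h
    rw [h2]; exact h4

lemma closed_even (n : ℕ) : ∀ l : List Stp, l.length = n → ∀ v, W v l v → Even l.length := by
  induction n using Nat.strong_induction_on with
  | _ n IH =>
    intro l hl v hW
    by_cases hred : Red l
    · by_cases hne : l = []
      · simp [hne]
      · exfalso
        have := claim ((l.map Prod.snd).sum) v v l hW hne hred (by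
          intro p hp
          exact List.le_sum_of_mem (List.mem_map_of_mem hp))
        exact this.2.2 rfl
    · unfold Red at hred
      rw [List.isChain_iff_forall_rel_of_append_cons_cons] at hred
      push Not at hred
      obtain ⟨p, q, l₁, l₂, h1, h2⟩ := hred
      subst h2
      rw [h1] at hW
      obtain ⟨u, hu1, hu2⟩ := (W_append _ _ _ _).mp hW
      have h3 := cancel hu2
      have h4 : W v (l₁ ++ l₂) v := (W_append _ _ _ _).mpr ⟨u, hu1, h3⟩
      have hlen : l.length = (l₁ ++ l₂).length + 2 := by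
        rw [h1]; simp; omega
      have := IH (l₁ ++ l₂).length (by omega) (l₁ ++ l₂) rfl v h4
      rw [hlen]
      exact this.add (by norm_num)

def conn : Setoid ℕ where
  r v w := ∃ l, W v l w
  iseqv := ⟨fun _ => ⟨[], rfl⟩, fun ⟨l, h⟩ => ⟨rev l, W_rev _ _ _ h⟩,
    fun ⟨l₁, h₁⟩ ⟨l₂, h₂⟩ => ⟨l₁ ++ l₂, (W_append _ _ _ _).mpr ⟨_, h₁, h₂⟩⟩⟩

noncomputable def root (v : ℕ) : ℕ := (Quotient.mk conn v).out

lemma root_walk (v : ℕ) : ∃ l, W (root v) l v := Quotient.exact (s := conn) (Quotient.out_eq _)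

open Classical in
noncomputable def c1 (v : ℕ) : Bool := decide (Even (root_walk v).choose.length)

theorem graph (s b : ℕ) (h : V F s b) : c1 (b - s) ≠ c1 (s * b) := by
  have hs : 0 < s := h.1
  have hF : 1 ≤ F s := by
    have h1 := F_ge s (V_ge h)
    have h2 : 0 < s ^ 5 := by positivity
    omega
  have hbs : s ≤ b := le_trans (Nat.le_mul_of_pos_right _ hF) h.2.2.2.2.1
  obtain ⟨x, rfl⟩ : ∃ x, b = x + s := ⟨b - s, by omega⟩
  have hx : x + s - s = x := by omega
  rw [hx]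
  have hstep : W x [(true, s)] (s * (x + s)) := ⟨h, rfl⟩
  have hroot : root x = root (s * (x + s)) := by
    unfold root
    congr 1
    exact Quotient.sound (s := conn) ⟨_, hstep⟩
  unfold c1
  set l₁ := (root_walk x).choose with hl₁
  have h1 : W (root x) l₁ x := (root_walk x).choose_spec
  set l₂ := (root_walk (s * (x + s))).choose with hl₂
  have h2 : W (root (s * (x + s))) l₂ (s * (x + s)) := (root_walk (s * (x + s))).choose_spec
  have h3 : W (root x) (l₁ ++ ([(true, s)] ++ rev l₂)) (root x) := by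
    rw [W_append]
    refine ⟨x, h1, ?_⟩
    rw [W_append]
    refine ⟨_, hstep, ?_⟩
    rw [hroot]
    exact W_rev _ _ _ h2
  have h4 := closed_even _ _ rfl _ h3
  simp only [List.length_append, rev_length, List.length_singleton] at h4
  intro hcon
  have hiff : Even l₁.length ↔ Even l₂.length := by
    simpa using hcon
  rw [Nat.even_add, Nat.even_add, hiff] at h4
  by_cases he : Even l₂.length
  · simp [he] at h4
  · simp [he] at h4

theorem main :
    ¬ (∀ (k : ℕ) (c : ℕ → Fin k),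
      ∃ (a : ℕ → ℕ) (i : Fin k),
        StrictMono a ∧ 0 < a 0 ∧
        ∀ n m : ℕ, n < m → c (a m - a n) = i ∧ c (a n * a m) = i) :=
  assembly F c1 graph

end Pool.Agent.H27.DiffProd
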