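import Pool.Agent.H27.DiffProd.Base

set_option autoImplicit false

namespace Pool.Agent.H27.DiffProd

/-- bound for the coefficients of affine words -/
def Bd (t : ℕ) : ℕ := (t + 1) ^ (t + 2)

def G (t : ℕ) : ℕ := 4 * Bd t ^ 2

/-- the growth function -/
def F (t : ℕ) : ℕ := 40 * t * G t ^ 2

def lam (s : ℕ) : ℕ := Nat.findGreatest (fun t => G t ≤ s) s

lemma Bd_mono {a b : ℕ} (h : a ≤ b) : Bd a ≤ Bd b := by
  unfold Bd
  calc (a + 1) ^ (a + 2) ≤ (b + 1) ^ (a + 2) := Nat.pow_le_pow_left (by omega) _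
    _ ≤ (b + 1) ^ (b + 2) := Nat.pow_le_pow_right (by omega) (by omega)

lemma lt_Bd (t : ℕ) : t < Bd t := by
  unfold Bd
  calc t < (t + 1) ^ 1 := by simp
    _ ≤ (t + 1) ^ (t + 2) := Nat.pow_le_pow_right (by omega) (by omega)

lemma Bd_pos (t : ℕ) : 0 < Bd t := lt_of_le_of_lt (Nat.zero_le _) (lt_Bd t)

lemma Bd_lt_G (t : ℕ) : Bd t < G t := by
  unfold G
  have := Bd_pos t
  nlinarith

lemma G_mono {a b : ℕ} (h : a ≤ b) : G a ≤ G b := by
  unfold G
  have := Bd_mono h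
  gcongr

lemma F_mono {a b : ℕ} (h : a ≤ b) : F a ≤ F b := by
  unfold F
  have := G_mono h
  gcongr

lemma lam_spec {s : ℕ} (h : lam s ≠ 0) : G (lam s) ≤ s := by
  unfold lam at h ⊢
  exact Nat.findGreatest_of_ne_zero (P := fun t => G t ≤ s) rfl h

lemma lt_G_of_lam_lt {s t : ℕ} (h : lam s < t) : s < G t := by
  by_cases hts : t ≤ s
  · have := Nat.findGreatest_is_greatest (P := fun t => G t ≤ s) h hts
    simpa using this
  · push Not at hts
    exact lt_trans hts (lt_trans (lt_Bd t) (Bd_lt_G t))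

lemma Bd_lam_sq {s : ℕ} (hs : 3 ≤ s) : Bd (lam s) ^ 2 < s := by
  by_cases h : lam s = 0
  · rw [h]; simp [Bd]; omega
  · have h1 := lam_spec h
    have h2 : G (lam s) = 4 * Bd (lam s) ^ 2 := rfl
    have h3 := Bd_pos (lam s)
    have h4 : 0 < Bd (lam s) ^ 2 := by positivity
    omega

lemma two_Bd_lam {s : ℕ} (hs : 3 ≤ s) : 2 * Bd (lam s) < s := by
  by_cases h : lam s = 0
  · rw [h]; simp [Bd]; omega
  · have h1 := lam_spec h
    have h2 : G (lam s) = 4 * Bd (lam s) ^ 2 := rfl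
    have h3 := Bd_pos (lam s)
    nlinarith

lemma two_lam {s : ℕ} (hs : 3 ≤ s) : 2 * lam s + 2 ≤ s := by
  have h1 := two_Bd_lam hs
  have h2 := lt_Bd (lam s)
  omega

lemma lam_lt {s : ℕ} (hs : 3 ≤ s) : lam s < s := by
  have := two_lam hs
  omega

lemma F_big {s t : ℕ} (hs : 3 ≤ s) (h : lam s < t) : 40 * t * s * Bd (lam s) ^ 2 < F t := by
  have h1 := lt_G_of_lam_lt h
  have h2 := Bd_lam_sq hs
  have ht : 0 < t := by omega
  unfold F
  calc 40 * t * s * Bd (lam s) ^ 2 = 40 * t * (s * Bd (lam s) ^ 2) := by ring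
    _ < 40 * t * (G t ^ 2) := by
        refine Nat.mul_lt_mul_of_pos_left ?_ (by positivity)
        calc s * Bd (lam s) ^ 2 ≤ s * s := by
              exact Nat.mul_le_mul_left _ h2.le
          _ < G t * G t := Nat.mul_lt_mul'' h1 h1
          _ = G t ^ 2 := by ring

/-- The numerical lemma. -/
lemma num {M y s t k k' c P Q' B : ℕ} {R' : ℤ} (hsM : s ≤ M) (htM : t ≤ M) (hs : 1 ≤ s)
    (ht : 1 ≤ t) (hP : 1 ≤ P) (hPB : P ≤ B) (hQB : Q' ≤ t * B)
    (hR : |R'| ≤ 2 * t * B) (hF : 40 * t * s * B ^ 2 < F t)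
    (h1 : M * F M ≤ y + M) (h2 : |((y + M : ℕ) : ℤ) - 2 ^ k| * F M ≤ (y + M : ℕ))
    (h3 : |(c : ℤ) - 2 ^ k'| * F t ≤ c)
    (h4 : (P : ℤ) * s * (y + s) + R' = Q' * c) : P * s * 2 ^ k = Q' * 2 ^ k' := by
  have hFM : F t ≤ F M := F_mono htM
  -- real variables
  set f : ℝ := (F t : ℝ) with hf
  set g : ℝ := (F M : ℝ) with hg
  have hfg : f ≤ g := by rw [hf, hg]; exact_mod_cast hFM
  have hB1 : (1 : ℝ) ≤ B := by exact_mod_cast le_trans hP hPB
  have hP1 : (1 : ℝ) ≤ P := by exact_mod_cast hP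
  have hPB' : (P : ℝ) ≤ B := by exact_mod_cast hPB
  have ht1 : (1 : ℝ) ≤ t := by exact_mod_cast ht
  have hs1 : (1 : ℝ) ≤ s := by exact_mod_cast hs
  have hQB' : (Q' : ℝ) ≤ t * B := by exact_mod_cast hQB
  have hQ0 : (0 : ℝ) ≤ Q' := by positivity
  have hR' : |(R' : ℝ)| ≤ 2 * t * B := by exact_mod_cast hR
  have hF' : 40 * (t : ℝ) * s * B ^ 2 < f := by rw [hf]; exact_mod_cast hF
  have htM' : (t : ℝ) ≤ M := by exact_mod_cast htM
  have hsM' : (s : ℝ) ≤ M := by exact_mod_cast hsM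
  set Y : ℝ := (y : ℝ) + M with hY
  set X : ℝ := (2 : ℝ) ^ k with hX
  set Z : ℝ := (2 : ℝ) ^ k' with hZ
  set b : ℝ := (y : ℝ) + s with hb
  have h1' : (M : ℝ) * g ≤ Y := by rw [hg, hY]; exact_mod_cast h1
  have h2' : |Y - X| * g ≤ Y := by
    rw [hg, hY, hX]
    have : ((|((y + M : ℕ) : ℤ) - 2 ^ k| * F M : ℤ) : ℝ) ≤ (((y + M : ℕ) : ℤ) : ℝ) := by
      exact_mod_cast h2
    push_cast at this
    simpa using this
  have h3' : |(c : ℝ) - Z| * f ≤ c := by
    rw [hf, hZ]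
    have : ((|(c : ℤ) - 2 ^ k'| * F t : ℤ) : ℝ) ≤ ((c : ℤ) : ℝ) := by exact_mod_cast h3
    push_cast at this
    simpa using this
  have h4' : (P : ℝ) * s * b + R' = Q' * c := by
    rw [hb]
    exact_mod_cast h4
  have hBB : (B : ℝ) ≤ B ^ 2 := by
    have := mul_le_mul_of_nonneg_left hB1 (by linarith : (0 : ℝ) ≤ B)
    rw [pow_two]; linarith
  have htsB : (1 : ℝ) ≤ t * s := one_le_mul_of_one_le_of_one_le ht1 hs1
  have hf40B : 40 * (B : ℝ) ≤ f := by
    have h5 : 1 * (B : ℝ) ^ 2 ≤ t * s * B ^ 2 :=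
      mul_le_mul_of_nonneg_right htsB (by positivity)
    linarith
  have hf40 : (40 : ℝ) ≤ f := by linarith
  have hf0 : (0 : ℝ) < f := by linarith
  have hY0 : 0 ≤ Y := by positivity
  have hb0 : 0 ≤ b := by positivity
  have hc0 : (0 : ℝ) ≤ c := by positivity
  -- (a), (b)
  have ea : |Y - X| * f ≤ Y := le_trans (mul_le_mul_of_nonneg_left hfg (abs_nonneg _)) h2'
  have eb : (M : ℝ) * f ≤ Y := le_trans (mul_le_mul_of_nonneg_left hfg (by positivity)) h1'
  have hbY : b = Y - (M - s) := by rw [hb, hY]; ring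
  -- (d)
  have ed : Y ≤ 2 * b := by
    have : (M : ℝ) * 40 ≤ Y :=
      le_trans (mul_le_mul_of_nonneg_left hf40 (by positivity)) eb
    rw [hbY]
    linarith
  -- (c), (e)
  have ee : |b - X| * f ≤ 4 * b := by
    have t1 : |b - X| ≤ |Y - X| + M := by
      have : b - X = (Y - X) - (M - s) := by rw [hbY]; ring
      rw [this]
      refine le_trans (abs_sub _ _) ?_
      have : |(M : ℝ) - s| = M - s := abs_of_nonneg (by linarith)
      rw [this]; linarith
    calc |b - X| * f ≤ (|Y - X| + M) * f := by gcongr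
      _ = |Y - X| * f + M * f := by ring
      _ ≤ Y + Y := add_le_add ea eb
      _ ≤ 4 * b := by linarith
  have hXb : b ≤ 2 * X := by
    have : |b - X| * 40 ≤ 4 * b := le_trans (mul_le_mul_of_nonneg_left hf40 (abs_nonneg _)) ee
    have := le_abs_self (b - X)
    linarith
  have hZc : (c : ℝ) ≤ 2 * Z := by
    have t1 : |(c : ℝ) - Z| * 40 ≤ c :=
      le_trans (mul_le_mul_of_nonneg_left hf40 (abs_nonneg _)) h3'
    have := le_abs_self ((c : ℝ) - Z)
    linarith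
  -- (g), (h)
  have eg : |(R' : ℝ)| * f ≤ 4 * B * b := by
    calc |(R' : ℝ)| * f ≤ (2 * t * B) * f := by gcongr
      _ ≤ (2 * M * B) * f := by gcongr
      _ = 2 * B * (M * f) := by ring
      _ ≤ 2 * B * Y := by gcongr
      _ ≤ 2 * B * (2 * b) := by gcongr
      _ = 4 * B * b := by ring
  have hRb : |(R' : ℝ)| ≤ b / 2 := by
    have : |(R' : ℝ)| * (40 * B) ≤ 4 * B * b :=
      le_trans (mul_le_mul_of_nonneg_left hf40B (abs_nonneg _)) eg
    have h5 : (B : ℝ) * (|(R' : ℝ)| * 40) ≤ B * (4 * b) := by linarith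
    have h6 := le_of_mul_le_mul_left h5 (by linarith)
    linarith
  have hPs : (1 : ℝ) ≤ P * s := one_le_mul_of_one_le_of_one_le hP1 hs1
  have hbPs : b ≤ P * s * b := le_mul_of_one_le_left hb0 hPs
  have hQc : Q' * (c : ℝ) ≤ 2 * (P * s * b) := by
    rw [← h4']
    have := le_abs_self (R' : ℝ)
    linarith
  have hQc2 : b ≤ 2 * (Q' * (c : ℝ)) := by
    rw [← h4']
    have := neg_abs_le (R' : ℝ)
    linarith
  -- (i)
  have ei : |P * s * X - Q' * Z| * f ≤ 10 * B * s * b := by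
    have t1 : P * s * X - Q' * Z = -(P * s * (b - X)) - R' + Q' * (c - Z) := by
      have : (R' : ℝ) = Q' * c - P * s * b := by linarith
      rw [this]; ring
    have t2 : |P * s * X - Q' * Z| ≤ P * s * |b - X| + |(R' : ℝ)| + Q' * |c - Z| := by
      rw [t1]
      calc |-(P * s * (b - X)) - R' + Q' * (c - Z)|
          ≤ |-(P * s * (b - X)) - R'| + |Q' * (c - Z)| := abs_add_le _ _
        _ ≤ |-(P * s * (b - X))| + |(R' : ℝ)| + |Q' * (c - Z)| := by
            gcongr; exact abs_sub _ _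
        _ = P * s * |b - X| + |(R' : ℝ)| + Q' * |c - Z| := by
            rw [abs_neg, abs_mul ((P : ℝ) * s), abs_mul (Q' : ℝ),
              abs_of_nonneg (by positivity : (0:ℝ) ≤ (P : ℝ) * s), abs_of_nonneg hQ0]
    calc |P * s * X - Q' * Z| * f ≤ (P * s * |b - X| + |(R' : ℝ)| + Q' * |c - Z|) * f := by gcongr
      _ = P * s * (|b - X| * f) + |(R' : ℝ)| * f + Q' * (|c - Z| * f) := by ring
      _ ≤ P * s * (4 * b) + 4 * B * b + Q' * c := by gcongr
      _ ≤ P * s * (4 * b) + 4 * B * b + 2 * (P * s * b) := by linarith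
      _ = 6 * (P * (s * b)) + 4 * B * b := by ring
      _ ≤ 6 * (B * (s * b)) + 4 * B * b := by gcongr
      _ ≤ 6 * (B * (s * b)) + 4 * (B * (s * b)) := by
          have : b ≤ s * b := le_mul_of_one_le_left hb0 hs1
          have : B * b ≤ B * (s * b) := by gcongr
          linarith
      _ = 10 * B * s * b := by ring
  -- (j)
  have hX1 : 0 < X := by positivity
  have hZ1 : 0 < Z := by positivity
  have ej1 : b ≤ 4 * t * B * X := by
    have h5 : 1 ≤ t * (B : ℝ) := one_le_mul_of_one_le_of_one_le ht1 hB1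
    have h6 : 1 * X ≤ t * B * X := mul_le_mul_of_nonneg_right h5 hX1.le
    linarith
  have ej2 : b ≤ 4 * t * B * Z := by
    calc b ≤ 2 * (Q' * (c : ℝ)) := hQc2
      _ ≤ 2 * (Q' * (2 * Z)) := by gcongr
      _ ≤ 2 * ((t * B) * (2 * Z)) := by gcongr
      _ = 4 * t * B * Z := by ring
  -- conclusion
  have key : ∀ m : ℝ, 0 < m → b ≤ 4 * t * B * m → |P * s * X - Q' * Z| < m := by
    intro m hm hbm
    have t1 : |P * s * X - Q' * Z| * f < m * f := by
      calc |P * s * X - Q' * Z| * f ≤ 10 * B * s * b := ei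
        _ ≤ 10 * B * s * (4 * t * B * m) := by gcongr
        _ = (40 * t * s * B ^ 2) * m := by ring
        _ < f * m := by gcongr
        _ = m * f := by ring
    exact lt_of_mul_lt_mul_right t1 hf0.le
  -- back to integers
  have kX := key X hX1 ej1
  have kZ := key Z hZ1 ej2
  have kX' : |(P * s * 2 ^ k - Q' * 2 ^ k' : ℤ)| < 2 ^ k := by
    have : ((|(P * s * 2 ^ k - Q' * 2 ^ k' : ℤ)| : ℤ) : ℝ) < ((2 ^ k : ℤ) : ℝ) := by
      push_cast
      exact kX
    exact_mod_cast this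
  have kZ' : |(P * s * 2 ^ k - Q' * 2 ^ k' : ℤ)| < 2 ^ k' := by
    have : ((|(P * s * 2 ^ k - Q' * 2 ^ k' : ℤ)| : ℤ) : ℝ) < ((2 ^ k' : ℤ) : ℝ) := by
      push_cast
      exact kZ
    exact_mod_cast this
  have hfin : (P * s * 2 ^ k - Q' * 2 ^ k' : ℤ) = 0 := by
    rcases le_total k k' with hk | hk
    · refine Int.eq_zero_of_abs_lt_dvd (m := 2 ^ k) ?_ kX'
      refine dvd_sub (Dvd.intro_left _ rfl) (Dvd.dvd.mul_left (pow_dvd_pow _ hk) _)
    · refine Int.eq_zero_of_abs_lt_dvd (m := 2 ^ k') ?_ kZ'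
      refine dvd_sub (Dvd.dvd.mul_left (pow_dvd_pow _ hk) _) (Dvd.intro_left _ rfl)
  have : ((P * s * 2 ^ k : ℕ) : ℤ) = ((Q' * 2 ^ k' : ℕ) : ℤ) := by
    push_cast
    linarith
  exact_mod_cast this

end Pool.Agent.H27.DiffProd
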