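import Pool.Agent.H27.DiffProd.Num

set_option autoImplicit false

namespace Pool.Agent.H27.DiffProd

/-- a step: direction (`true` = up, from `x` to `s (x+s)`) and label -/
abbrev Stp := Bool × ℕ

def flp (p : Stp) : Stp := (!p.1, p.2)

@[simp] lemma flp_flp (p : Stp) : flp (flp p) = p := by
  unfold flp; simp

/-- walks in the graph of valid pairs -/
def W : ℕ → List Stp → ℕ → Prop
  | v, [], w => v = w
  | v, (true, s) :: l, w => V F s (v + s) ∧ W (s * (v + s)) l w
  | v, (false, s) :: l, w => ∃ x, V F s (x + s) ∧ v = s * (x + s) ∧ W x l w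

def Red (l : List Stp) : Prop := List.IsChain (fun p q => q ≠ flp p) l

def rev (l : List Stp) : List Stp := (l.map flp).reverse

/-- the affine map of a word -/
def T : List Stp → ℚ → ℚ
  | [], x => x
  | (true, s) :: l, x => T l (s * (x + s))
  | (false, s) :: l, x => T l (x / s - s)

lemma V_ge {s b : ℕ} (h : V F s b) : 3 ≤ s := by
  obtain ⟨h0, h1, _⟩ := h
  have e0 := h1 0
  have e1 := h1 1
  simp at e0 e1
  omega

lemma W_append (l₁ l₂ : List Stp) : ∀ v w, W v (l₁ ++ l₂) w ↔ ∃ u, W v l₁ u ∧ W u l₂ w := by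
  induction l₁ with
  | nil => intro v w; simp [W]
  | cons p l ih =>
    intro v w
    obtain ⟨d, s⟩ := p
    cases d with
    | true =>
      simp only [List.cons_append, W, ih]
      constructor
      · rintro ⟨h1, u, h2, h3⟩; exact ⟨u, ⟨h1, h2⟩, h3⟩
      · rintro ⟨u, ⟨h1, h2⟩, h3⟩; exact ⟨h1, u, h2, h3⟩
    | false =>
      simp only [List.cons_append, W, ih]
      constructor
      · rintro ⟨x, h1, h2, u, h3, h4⟩; exact ⟨u, ⟨x, h1, h2, h3⟩, h4⟩
      · rintro ⟨u, ⟨x, h1, h2, h3⟩, h4⟩; exact ⟨x, h1, h2, u, h3, h4⟩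

lemma rev_cons (p : Stp) (l : List Stp) : rev (p :: l) = rev l ++ [flp p] := by
  simp [rev]

lemma rev_append (l₁ l₂ : List Stp) : rev (l₁ ++ l₂) = rev l₂ ++ rev l₁ := by
  simp [rev]

@[simp] lemma rev_rev (l : List Stp) : rev (rev l) = l := by
  unfold rev
  rw [← List.map_reverse, List.reverse_reverse, List.map_map]
  have : flp ∘ flp = id := by funext p; simp
  rw [this]; simp

@[simp] lemma rev_length (l : List Stp) : (rev l).length = l.length := by simp [rev]

lemma rev_eq_nil {l : List Stp} : rev l = [] ↔ l = [] := by simp [rev]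

lemma W_rev (l : List Stp) : ∀ v w, W v l w → W w (rev l) v := by
  induction l with
  | nil => intro v w h; simpa [W, rev] using h.symm
  | cons p l ih =>
    intro v w h
    rw [rev_cons, W_append]
    obtain ⟨d, s⟩ := p
    cases d with
    | true =>
      obtain ⟨h1, h2⟩ := h
      exact ⟨_, ih _ _ h2, v, h1, rfl, rfl⟩
    | false =>
      obtain ⟨x, h1, h2, h3⟩ := h
      exact ⟨_, ih _ _ h3, h1, h2.symm⟩

lemma Red_rev {l : List Stp} (h : Red l) : Red (rev l) := by
  unfold Red rev at *
  rw [List.isChain_reverse, List.isChain_map]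
  refine h.imp ?_
  intro p q hpq he
  apply hpq
  rw [he, flp_flp]

lemma mem_rev {l : List Stp} {p : Stp} : p ∈ rev l ↔ flp p ∈ l := by
  unfold rev
  rw [List.mem_reverse, List.mem_map]
  constructor
  · rintro ⟨q, hq, rfl⟩; simpa using hq
  · intro h; exact ⟨_, h, by simp⟩

lemma rev_labels {l : List Stp} {k : ℕ} (h : ∀ p ∈ l, p.2 ≤ k) : ∀ p ∈ rev l, p.2 ≤ k := by
  intro p hp
  have := h _ (mem_rev.mp hp)
  simpa [flp] using this

lemma W_labels (l : List Stp) : ∀ v w, W v l w → ∀ p ∈ l, 3 ≤ p.2 := by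
  induction l with
  | nil => intro v w _ p hp; simp at hp
  | cons p l ih =>
    intro v w h q hq
    obtain ⟨d, s⟩ := p
    cases d with
    | true =>
      obtain ⟨h1, h2⟩ := h
      rcases List.mem_cons.mp hq with rfl | hq
      · exact V_ge h1
      · exact ih _ _ h2 q hq
    | false =>
      obtain ⟨x, h1, h2, h3⟩ := h
      rcases List.mem_cons.mp hq with rfl | hq
      · exact V_ge h1
      · exact ih _ _ h3 q hq

lemma T_append (l₁ l₂ : List Stp) : ∀ x, T (l₁ ++ l₂) x = T l₂ (T l₁ x) := by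
  induction l₁ with
  | nil => intro x; simp [T]
  | cons p l ih =>
    intro x
    obtain ⟨d, s⟩ := p
    cases d <;> simp [T, ih]

lemma T_rev (l : List Stp) (hl : ∀ p ∈ l, 3 ≤ p.2) : ∀ x, T (rev l) (T l x) = x := by
  induction l with
  | nil => intro x; simp [T, rev]
  | cons p l ih =>
    intro x
    have ih' := ih (fun q hq => hl q (List.mem_cons_of_mem _ hq))
    have hp := hl p (List.mem_cons_self)
    obtain ⟨d, s⟩ := p
    have hs : (s : ℚ) ≠ 0 := by
      have : 3 ≤ s := hp
      have : s ≠ 0 := by omega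
      exact_mod_cast this
    rw [rev_cons, T_append]
    cases d with
    | true =>
      simp only [T, flp, ih']
      simp only [Bool.not_true, T]
      field_simp
      ring
    | false =>
      simp only [T, flp, ih']
      simp only [Bool.not_false, T]
      field_simp
      ring

lemma W_T (l : List Stp) : ∀ v w, W v l w → T l (v : ℚ) = w := by
  induction l with
  | nil => intro v w h; simp only [W] at h; simp [T, h]
  | cons p l ih =>
    intro v w h
    obtain ⟨d, s⟩ := p
    cases d with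
    | true =>
      obtain ⟨h1, h2⟩ := h
      have := ih _ _ h2
      simp only [T]
      push_cast at this
      exact this
    | false =>
      obtain ⟨x, h1, h2, h3⟩ := h
      have h4 := ih _ _ h3
      have hs : (s : ℚ) ≠ 0 := by
        have : 3 ≤ s := V_ge h1
        have : s ≠ 0 := by omega
        exact_mod_cast this
      simp only [T]
      rw [← h4, h2]
      congr 1
      push_cast
      field_simp
      ring

/-- coefficients -/
def cP : List Stp → ℕ
  | [] => 1
  | (true, s) :: l => cP l * s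
  | (false, _) :: l => cP l

def cQ : List Stp → ℕ
  | [] => 1
  | (true, _) :: l => cQ l
  | (false, s) :: l => cQ l * s

def cR : List Stp → ℤ
  | [] => 0
  | (true, s) :: l => cP l * s ^ 2 + cR l
  | (false, s) :: l => s * cR l - cP l * s ^ 2

lemma cP_pos (l : List Stp) (hl : ∀ p ∈ l, 3 ≤ p.2) : 1 ≤ cP l := by
  induction l with
  | nil => simp [cP]
  | cons p l ih =>
    have ih' := ih (fun q hq => hl q (List.mem_cons_of_mem _ hq))
    have hp := hl p (List.mem_cons_self)
    obtain ⟨d, s⟩ := p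
    have hs : 3 ≤ s := hp
    cases d with
    | true => simp only [cP]; exact Nat.mul_pos ih' (by omega)
    | false => simpa only [cP] using ih'

lemma cQ_pos (l : List Stp) (hl : ∀ p ∈ l, 3 ≤ p.2) : 1 ≤ cQ l := by
  induction l with
  | nil => simp [cQ]
  | cons p l ih =>
    have ih' := ih (fun q hq => hl q (List.mem_cons_of_mem _ hq))
    have hp := hl p (List.mem_cons_self)
    obtain ⟨d, s⟩ := p
    have hs : 3 ≤ s := hp
    cases d with
    | true => simpa only [cQ] using ih'
    | false => simp only [cQ]; exact Nat.mul_pos ih' (by omega)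

lemma T_coef (l : List Stp) (hl : ∀ p ∈ l, 3 ≤ p.2) (x : ℚ) :
    (cQ l : ℚ) * T l x = cP l * x + cR l := by
  induction l generalizing x with
  | nil => simp [cP, cQ, cR, T]
  | cons p l ih =>
    have ih' := ih (fun q hq => hl q (List.mem_cons_of_mem _ hq))
    have hp := hl p (List.mem_cons_self)
    obtain ⟨d, s⟩ := p
    have hs : (s : ℚ) ≠ 0 := by
      have : 3 ≤ s := hp
      have : s ≠ 0 := by omega
      exact_mod_cast this
    cases d with
    | true =>
      simp only [cP, cQ, cR, T, ih']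
      push_cast
      ring
    | false =>
      simp only [cP, cQ, cR, T]
      push_cast
      have : (cQ l : ℚ) * s * T l (x / s - s) = s * (cQ l * T l (x / s - s)) := by ring
      rw [this, ih']
      field_simp
      ring

lemma coef_bound (L : ℕ) (l : List Stp) (hl : ∀ p ∈ l, 3 ≤ p.2) (hL : ∀ p ∈ l, p.2 ≤ L) :
    cP l ≤ (L + 1) ^ l.length ∧ cQ l ≤ (L + 1) ^ l.length ∧
      |cR l| ≤ l.length * (L + 1) ^ (l.length + 1) := by
  induction l with
  | nil => simp [cP, cQ, cR]
  | cons p l ih =>
    obtain ⟨i1, i2, i3⟩ := ih (fun q hq => hl q (List.mem_cons_of_mem _ hq))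
      (fun q hq => hL q (List.mem_cons_of_mem _ hq))
    have hp := hl p (List.mem_cons_self)
    have hp' := hL p (List.mem_cons_self)
    obtain ⟨d, s⟩ := p
    have hs : 3 ≤ s := hp
    have hsL : s ≤ L + 1 := by
      have : s ≤ L := hp'
      omega
    have hsL' : (s : ℤ) ≤ (L : ℤ) + 1 := by exact_mod_cast hsL
    have i1' : (cP l : ℤ) ≤ ((L : ℤ) + 1) ^ l.length := by exact_mod_cast i1
    set n := l.length with hn
    have hlen : ((d, s) :: l).length = n + 1 := by simp [hn]
    rw [hlen]
    have hpow : ((L : ℤ) + 1) ^ n * (L + 1) ^ 2 = (L + 1) ^ (n + 2) := by ring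
    have hPs : (cP l : ℤ) * s ^ 2 ≤ (L + 1) ^ (n + 2) := by
      rw [← hpow]
      have : (s : ℤ) ^ 2 ≤ ((L : ℤ) + 1) ^ 2 := by gcongr
      gcongr
    have hPs0 : (0 : ℤ) ≤ (cP l : ℤ) * s ^ 2 := by positivity
    cases d with
    | true =>
      refine ⟨?_, ?_, ?_⟩
      · simp only [cP]
        rw [pow_succ]
        exact Nat.mul_le_mul i1 hsL
      · simp only [cQ]
        exact le_trans i2 (Nat.pow_le_pow_right (by omega) (by omega))
      · simp only [cR]
        calc |(cP l : ℤ) * s ^ 2 + cR l| ≤ |(cP l : ℤ) * s ^ 2| + |cR l| := abs_add_le _ _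
          _ ≤ (L + 1) ^ (n + 2) + n * (L + 1) ^ (n + 1) := by
              rw [abs_of_nonneg hPs0]; gcongr
          _ ≤ (L + 1) ^ (n + 2) + n * (L + 1) ^ (n + 2) := by
              gcongr
              · omega
              · omega
          _ = ((n + 1 : ℕ) : ℤ) * (L + 1) ^ (n + 1 + 1) := by push_cast; ring
    | false =>
      refine ⟨?_, ?_, ?_⟩
      · simp only [cP]
        exact le_trans i1 (Nat.pow_le_pow_right (by omega) (by omega))
      · simp only [cQ]
        rw [pow_succ]
        exact Nat.mul_le_mul i2 hsL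
      · simp only [cR]
        calc |(s : ℤ) * cR l - cP l * s ^ 2| ≤ |(s : ℤ) * cR l| + |(cP l : ℤ) * s ^ 2| := abs_sub _ _
          _ = s * |cR l| + (cP l : ℤ) * s ^ 2 := by
              rw [abs_mul, abs_of_nonneg hPs0, abs_of_nonneg (by positivity : (0:ℤ) ≤ (s : ℤ))]
          _ ≤ (L + 1) * (n * (L + 1) ^ (n + 1)) + (L + 1) ^ (n + 2) := by gcongr
          _ = ((n + 1 : ℕ) : ℤ) * (L + 1) ^ (n + 1 + 1) := by push_cast; ring

lemma coef_Bd (L : ℕ) (l : List Stp) (hl : ∀ p ∈ l, 3 ≤ p.2) (hL : ∀ p ∈ l, p.2 ≤ L)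
    (hlen : l.length ≤ L) : cP l ≤ Bd L ∧ cQ l ≤ Bd L ∧ |cR l| ≤ Bd L := by
  obtain ⟨h1, h2, h3⟩ := coef_bound L l hl hL
  have e1 : (L + 1) ^ l.length ≤ Bd L := Nat.pow_le_pow_right (by omega) (by omega)
  refine ⟨h1.trans e1, h2.trans e1, h3.trans ?_⟩
  unfold Bd
  push_cast
  calc (l.length : ℤ) * (L + 1) ^ (l.length + 1) ≤ (L + 1) * (L + 1) ^ (L + 1) := by
        gcongr
        · exact_mod_cast (by omega : l.length ≤ L + 1)
        · omega
    _ = (L + 1) ^ (L + 2) := by ring

end Pool.Agent.H27.DiffProd
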